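import Pool.Agent.Helper741.QSym.Basic

set_option autoImplicit false
set_option linter.unusedSectionVars false
set_option linter.unusedVariables false

namespace Pool.Agent.H266Z.DS

open Pool.Agent.H741.QS

section alg

variable {B : Type} [Ring B] [StarRing B] [Algebra ℝ B] [StarModule ℝ B]

theorem sq_comm_of {p ξ : B} {r : ℝ} (h : p * ξ + ξ * p = r • (p * p)) :
    p * p * ξ = ξ * (p * p) := by
  have h1 : p * (p * ξ + ξ * p) = p * (r • (p * p)) := by rw [h]
  have h2 : (p * ξ + ξ * p) * p = (r • (p * p)) * p := by rw [h]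
  rw [mul_smul_comm] at h1
  rw [smul_mul_assoc, mul_assoc p p p] at h2
  have h3 : p * (p * ξ + ξ * p) = (p * ξ + ξ * p) * p := by rw [h1, h2]
  linear_combination (norm := noncomm_ring) h3

theorem comm_prod {p ξ η : B} {r t : ℝ} (h1 : p * ξ + ξ * p = (2 * r) • (p * p))
    (h2 : p * η + η * p = (2 * t) • (p * p)) :
    p * (ξ * η) - ξ * η * p = (2 : ℝ) • (p * p * (r • η - t • ξ)) := by
  have h3 := sq_comm_of h1
  have e1 : p * (ξ * η) - ξ * η * p = (p * ξ + ξ * p) * η - ξ * (p * η + η * p) := by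
    noncomm_ring
  rw [e1, h1, h2, smul_mul_assoc, mul_smul_comm, ← h3, mul_sub, mul_smul_comm, mul_smul_comm,
    smul_sub, smul_smul, smul_smul]

theorem cliff (hB : ∀ x : B, star x * x = 0 → x = 0) {p q ξ1 ξ2 ξ3 ξ4 : B}
    {l1 l2 l3 l4 m1 m2 m3 m4 : ℝ} (hp : star p = p) (hq : star q = q)
    (hpq : p * q + q * p = 0)
    (a1 : p * ξ1 + ξ1 * p = (2 * l1) • (p * p)) (a2 : p * ξ2 + ξ2 * p = (2 * l2) • (p * p))
    (a3 : p * ξ3 + ξ3 * p = (2 * l3) • (p * p)) (a4 : p * ξ4 + ξ4 * p = (2 * l4) • (p * p))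
    (b1 : q * ξ1 + ξ1 * q = (2 * m1) • (q * q)) (b2 : q * ξ2 + ξ2 * q = (2 * m2) • (q * q))
    (b3 : q * ξ3 + ξ3 * q = (2 * m3) • (q * q)) (b4 : q * ξ4 + ξ4 * q = (2 * m4) • (q * q))
    (hz : p * (ξ1 * ξ2 - ξ3 * ξ4) = 0) (hne : p * q ≠ 0) :
    l1 * m2 - l2 * m1 - l3 * m4 + l4 * m3 = 0 := by
  set W : B := (l1 • ξ2 - l2 • ξ1) - (l3 • ξ4 - l4 • ξ3) with hW
  have c1 := comm_prod a1 a2
  have c2 := comm_prod a3 a4
  have c3 : p * (ξ1 * ξ2 - ξ3 * ξ4) - (ξ1 * ξ2 - ξ3 * ξ4) * p = (2 : ℝ) • (p * p * W) := by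
    rw [hW, mul_sub (p * p), smul_sub, ← c1, ← c2]
    noncomm_ring
  have c4 : p * ((2 : ℝ) • (p * p * W)) = 0 := by
    rw [← c3, mul_sub, ← mul_assoc p (ξ1 * ξ2 - ξ3 * ξ4) p, hz]
    simp
  have c5 : p * p * (p * p) * W = 0 := by
    have h1 := congrArg (fun z => (2 : ℝ)⁻¹ • (p * z)) c4
    simp only [mul_smul_comm, smul_smul, mul_zero, smul_zero] at h1
    norm_num at h1
    rw [← h1]
    noncomm_ring
  have c6 : q * W + W * q = (2 * (l1 * m2 - l2 * m1 - l3 * m4 + l4 * m3)) • (q * q) := by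
    have e : q * W + W * q = l1 • (q * ξ2 + ξ2 * q) - l2 • (q * ξ1 + ξ1 * q) -
        l3 • (q * ξ4 + ξ4 * q) + l4 • (q * ξ3 + ξ3 * q) := by
      simp only [hW, mul_sub, sub_mul, mul_smul_comm, smul_mul_assoc, smul_add]
      abel
    rw [e, b1, b2, b3, b4]
    simp only [smul_smul]
    rw [← sub_smul, ← sub_smul, ← add_smul]
    congr 1
    ring
  have c7 : p * p * q = q * (p * p) := by
    apply sq_comm_of (r := 0)
    rw [hpq, zero_smul]
  have c8 : p * p * (p * p) * (q * W + W * q) = 0 := by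
    have e : p * p * (p * p) * (q * W + W * q) =
        p * p * (p * p * q) * W + p * p * (p * p) * W * q := by noncomm_ring
    have e2 : p * p * (q * (p * p)) * W = (p * p * q) * (p * p) * W := by noncomm_ring
    have e3 : q * (p * p) * (p * p) * W = q * (p * p * (p * p) * W) := by noncomm_ring
    rw [e, c5, c7, e2, c7, e3, c5]
    simp
  by_contra hρ
  have hρ' : (2 * (l1 * m2 - l2 * m1 - l3 * m4 + l4 * m3)) ≠ 0 := mul_ne_zero two_ne_zero hρ
  rw [c6, mul_smul_comm] at c8
  have c9 : p * p * (p * p) * (q * q) = 0 := by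
    have h1 := congrArg (fun z => (2 * (l1 * m2 - l2 * m1 - l3 * m4 + l4 * m3))⁻¹ • z) c8
    simpa only [smul_smul, inv_mul_cancel₀ hρ', one_smul, smul_zero] using h1
  have c10 : p * p * q = 0 := by
    apply hB
    rw [star_mul, star_mul, hp, hq]
    have e : q * (p * p) * (p * p * q) = (q * (p * p)) * (p * p) * q := by noncomm_ring
    have e2 : p * p * q * (p * p) * q = p * p * (q * (p * p)) * q := by noncomm_ring
    rw [e, ← c7, e2, ← c7, ← c9]
    noncomm_ring
  apply hne
  apply hB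
  rw [star_mul, hp, hq]
  have e : q * p * (p * q) = q * (p * p * q) := by noncomm_ring
  rw [e, c10, mul_zero]

end alg

/-- flips and signs -/
structure Cube {V D : Type} (φ : D → V → V) (x : D → V → ℝ) (dd : V → V → ℝ) : Prop where
  inv : ∀ k a, φ k (φ k a) = a
  sq : ∀ k a, x k a * x k a = 1
  flip : ∀ k a, x k (φ k a) = - x k a
  other : ∀ k j a, j ≠ k → x k (φ j a) = x k a
  comm : ∀ k j a, φ k (φ j a) = φ j (φ k a)
  dsymm : ∀ a b, dd a b = dd b a
  dflip : ∀ k a c, dd a c - dd (φ k a) c = - (x k a * x k c)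

section

variable {V D : Type} [Fintype V] [Fintype D]
variable {B : Type} [Ring B] [StarRing B] [Algebra ℝ B] [StarModule ℝ B]

/-- a quantum isomorphism compatible with flips -/
structure QC (G : SimpleGraph V) (u : V → V → B) (φ : D → V → V) (x : D → V → ℝ)
    (dd : V → V → ℝ) : Prop where
  q : QIso G G u
  c : Cube φ x dd
  pd : QIso.Pres u dd dd
  row : ∀ k a w v, u a w * u (φ k a) v ≠ 0 → ∃ l, v = φ l w
  col : ∀ l a b w, u a w * u b (φ l w) ≠ 0 → ∃ k, b = φ k a

variable {G : SimpleGraph V} {u : V → V → B} {φ : D → V → V} {x : D → V → ℝ} {dd : V → V → ℝ}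

theorem pres_T {T : V → V → ℝ} (hT : QIso.Pres u T T) :
    QIso.Pres (fun w a => u a w) T T := fun a b w v h => hT w v a b (Ne.symm h)

theorem QC.transpose (h : QC G u φ x dd) : QC G (fun w a => u a w) φ x dd where
  q := h.q.transpose
  c := h.c
  pd := pres_T h.pd
  row k a w v hne := h.col k w v a hne
  col l a b w hne := h.row l w a b hne

/-- the flip as an equivalence -/
def Cube.eqv (h : Cube φ x dd) (k : D) : V ≃ V where
  toFun := φ k
  invFun := φ k
  left_inv := h.inv k
  right_inv := h.inv k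

theorem Cube.sum_flip (h : Cube φ x dd) (k : D) {M : Type} [AddCommMonoid M] (f : V → M) :
    ∑ a, f (φ k a) = ∑ a, f a := Equiv.sum_comp (h.eqv k) f

theorem Cube.ne_zero (h : Cube φ x dd) (k : D) (a : V) : x k a ≠ 0 := by
  intro h0
  have := h.sq k a
  rw [h0] at this
  norm_num at this

theorem Cube.inj (h : Cube φ x dd) (a : V) : Function.Injective (fun k => φ k a) := by
  intro k j hkj
  by_contra hne
  have h1 := h.flip k a
  have h2 := h.other k j a (Ne.symm hne)
  simp only at hkj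
  rw [hkj, h2] at h1
  apply h.ne_zero k a
  linarith

/-- the generator -/
noncomputable def ss (u : V → V → B) (φ : D → V → V) (x : D → V → ℝ) (k l : D) (a : V) : B :=
  (x k a / 2) • (al u (x l) a - al u (x l) (φ k a))

theorem QC.al_x (h : QC G u φ x dd) (l : D) (a o : V) :
    al u (x l) a = x l o • ∑ c, dd a c • (u c (φ l o) - u c o) := by
  have hp := (h.q.pres_iff dd dd).1 h.pd
  simp only [smul_sub, Finset.sum_sub_distrib]
  rw [hp a (φ l o), hp a o, ← smul_sub, ← Finset.sum_sub_distrib, Finset.smul_sum, al]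
  refine Finset.sum_congr rfl fun w _ => ?_
  rw [← sub_smul, smul_smul]
  congr 1
  have h1 := h.c.dflip l o w
  rw [h.c.dsymm w (φ l o), h.c.dsymm w o]
  have h2 := h.c.sq l o
  have h3 : dd (φ l o) w - dd o w = x l o * x l w := by linarith
  rw [h3, ← mul_assoc, h2, one_mul]

theorem QC.ss_eq (h : QC G u φ x dd) (k l : D) (a o : V) :
    ss u φ x k l a = ss (fun w a => u a w) φ x l k o := by
  unfold ss
  rw [h.al_x l a o, h.al_x l (φ k a) o, ← smul_sub, ← Finset.sum_sub_distrib]
  have e : ∀ c, dd a c • (u c (φ l o) - u c o) - dd (φ k a) c • (u c (φ l o) - u c o) =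
      x k a • (x k c • u c o - x k c • u c (φ l o)) := by
    intro c
    rw [← sub_smul, h.c.dflip, ← smul_sub, smul_smul, neg_smul, ← smul_neg, neg_sub]
  simp only [e]
  rw [← Finset.smul_sum, Finset.sum_sub_distrib, smul_smul, smul_smul]
  have h2 := h.c.sq k a
  have e2 : x k a / 2 * x l o * x k a = x l o / 2 := by
    have : x k a / 2 * x l o * x k a = (x k a * x k a) * (x l o / 2) := by ring
    rw [this, h2, one_mul]
  rw [e2]
  rfl

theorem QC.ss_const (h : QC G u φ x dd) (k l : D) (a b : V) :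
    ss u φ x k l a = ss u φ x k l b := by
  rw [h.ss_eq k l a a, h.ss_eq k l b a]

theorem QC.star_ss (h : QC G u φ x dd) (k l : D) (a : V) :
    star (ss u φ x k l a) = ss u φ x k l a := by
  unfold ss
  rw [star_smul, star_sub, h.q.star_al, h.q.star_al]
  simp

theorem QC.F1 (h : QC G u φ x dd) (k l : D) (a w o : V) :
    u a w * ss u φ x k l o = (x k a * x l w) • (u a w * u (φ k a) (φ l w)) := by
  classical
  rw [h.ss_const k l o a]
  unfold ss
  have h1 : u a w * al u (x l) a = ∑ v, x l w • (u a w * u (φ k a) v) := by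
    rw [h.q.u_mul_al, ← Finset.smul_sum, ← Finset.mul_sum, h.q.rowSum, mul_one]
  have h2 : u a w * al u (x l) (φ k a) = ∑ v, x l v • (u a w * u (φ k a) v) := by
    unfold al
    rw [Finset.mul_sum]
    exact Finset.sum_congr rfl fun v _ => mul_smul_comm _ _ _
  rw [mul_smul_comm, mul_sub, h1, h2, ← Finset.sum_sub_distrib, Finset.sum_eq_single (φ l w)]
  · rw [← sub_smul, h.c.flip, smul_smul]
    congr 1
    ring
  · intro v _ hv
    by_cases h0 : u a w * u (φ k a) v = 0
    · rw [h0]; simp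
    · obtain ⟨l', rfl⟩ := h.row k a w v h0
      have : l' ≠ l := fun e => hv (by rw [e])
      rw [h.c.other l l' w this, sub_self]
  · intro hw; exact absurd (Finset.mem_univ _) hw

theorem QC.F1' (h : QC G u φ x dd) (k l : D) (a w o : V) :
    u a w * u (φ k a) (φ l w) = (x k a * x l w) • (u a w * ss u φ x k l o) := by
  rw [h.F1, smul_smul]
  have : x k a * x l w * (x k a * x l w) = (x k a * x k a) * (x l w * x l w) := by ring
  rw [this, h.c.sq, h.c.sq, one_mul, one_smul]

theorem QC.conj (h : QC G u φ x dd) (k l : D) (a w o : V) :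
    ss u φ x k l o * u a w = u (φ k a) (φ l w) * ss u φ x k l o := by
  have h1 := congrArg star (h.F1 k l a w o)
  rw [star_mul, h.star_ss, h.q.star_eq, star_smul, star_trivial (x k a * x l w), star_mul,
    h.q.star_eq, h.q.star_eq] at h1
  rw [h1, h.F1 k l (φ k a) (φ l w) o, h.c.inv, h.c.inv, h.c.flip, h.c.flip]
  simp

theorem QC.sy (h : QC G u φ x dd) (k l : D) (a o : V) :
    ss u φ x k l o * al u (x l) a = - (al u (x l) (φ k a) * ss u φ x k l o) := by
  unfold al
  rw [Finset.mul_sum, Finset.sum_mul, ← Finset.sum_neg_distrib, ← h.c.sum_flip l]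
  refine Finset.sum_congr rfl fun w _ => ?_
  rw [mul_smul_comm, h.conj, h.c.inv, h.c.flip, smul_mul_assoc, neg_smul]

theorem QC.y_flip (h : QC G u φ x dd) (k l : D) (a o : V) :
    al u (x l) (φ k a) = al u (x l) a - (2 * x k a) • ss u φ x k l o := by
  rw [h.ss_const k l o a]
  unfold ss
  rw [smul_smul]
  have : 2 * x k a * (x k a / 2) = 1 := by
    have h2 := h.c.sq k a
    linarith
  rw [this, one_smul]
  abel

theorem QC.anti_y (h : QC G u φ x dd) (k l : D) (a o : V) :
    ss u φ x k l o * al u (x l) a + al u (x l) a * ss u φ x k l o =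
      (2 * x k a) • (ss u φ x k l o * ss u φ x k l o) := by
  rw [h.sy, h.y_flip k l a o, sub_mul, smul_mul_assoc]
  abel

theorem QC.anti_s (h : QC G u φ x dd) (k j l : D) (hjk : j ≠ k) (o : V) :
    ss u φ x k l o * ss u φ x j l o + ss u φ x j l o * ss u φ x k l o = 0 := by
  have h1 := h.anti_y k l o o
  have h2 := h.anti_y k l (φ j o) o
  rw [h.c.other k j o hjk] at h2
  have e : ss u φ x j l o = (x j o / 2) • (al u (x l) o - al u (x l) (φ j o)) := rfl
  generalize ss u φ x k l o = p at h1 h2 ⊢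
  rw [e, mul_smul_comm, smul_mul_assoc, ← smul_add]
  have : p * (al u (x l) o - al u (x l) (φ j o)) + (al u (x l) o - al u (x l) (φ j o)) * p = 0 := by
    have h3 := h1.trans h2.symm
    linear_combination (norm := noncomm_ring) h3
  rw [this, smul_zero]

theorem QC.anti_sum (h : QC G u φ x dd) (k l : D) (o : V) (r : D → ℝ) :
    ss u φ x k l o * (∑ j, r j • ss u φ x j l o) + (∑ j, r j • ss u φ x j l o) * ss u φ x k l o =
      (2 * r k) • (ss u φ x k l o * ss u φ x k l o) := by
  classical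
  rw [Finset.mul_sum, Finset.sum_mul, ← Finset.sum_add_distrib, Finset.sum_eq_single k]
  · rw [mul_smul_comm, smul_mul_assoc, ← add_smul, two_mul]
  · intro j _ hj
    rw [mul_smul_comm, smul_mul_assoc, ← smul_add, h.anti_s k j l hj, smul_zero]
  · intro hk; exact absurd (Finset.mem_univ _) hk

/-- the conjugated flip -/
noncomputable def Mq (u : V → V → B) (φ : D → V → V) (l : D) (a b : V) : B :=
  ∑ w, u a w * u b (φ l w)

theorem QC.Mq_right (h : QC G u φ x dd) (j l : D) (a o : V) :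
    Mq u φ l a (φ j a) = x j a • (al u (x l) a * ss u φ x j l o) := by
  unfold Mq al
  rw [Finset.sum_mul, Finset.smul_sum]
  refine Finset.sum_congr rfl fun w _ => ?_
  rw [h.F1' j l a w o, smul_mul_assoc, smul_smul]

theorem QC.Mq_left (h : QC G u φ x dd) (j l : D) (b o : V) :
    Mq u φ l (φ j b) b = x j b • (ss u φ x j l o * al u (x l) b) := by
  have h1 := h.Mq_right j l (φ j b) o
  rw [h.c.inv] at h1
  rw [h1, h.sy, h.c.flip, neg_smul, smul_neg]

theorem QC.Mq_zero (h : QC G u φ x dd) (l : D) (a b : V) (hn : ¬ ∃ j, b = φ j a) :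
    Mq u φ l a b = 0 := by
  unfold Mq
  refine Finset.sum_eq_zero fun w _ => ?_
  by_contra h0
  exact hn (h.col l a b w h0)

theorem Cube.sum_nb (h : Cube φ x dd) (a : V) {M : Type} [AddCommMonoid M] (f : V → M)
    (hf : ∀ b, (¬ ∃ j, b = φ j a) → f b = 0) : ∑ b, f b = ∑ j, f (φ j a) := by
  classical
  rw [← Finset.sum_image (s := Finset.univ) (g := fun j => φ j a) (f := f)
    (fun i _ j _ hij => h.inj a hij)]
  symm
  apply Finset.sum_subset (Finset.subset_univ _)
  intro b _ hb
  apply hf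
  rintro ⟨j, rfl⟩
  exact hb (Finset.mem_image.2 ⟨j, Finset.mem_univ _, rfl⟩)

theorem QC.rel (h : QC G u φ x dd) {T : V → V → ℝ} (hT : QIso.Pres u T T) (k l : D)
    (a b o : V) :
    ss u φ x k l o * (∑ b', T (φ k a) (φ k b') • Mq u φ l b' b) =
      ss u φ x k l o * (∑ a', T a' b • Mq u φ l a a') := by
  have p1 := (h.q.pres_iff T T).1 hT
  have p2 := (h.q.transpose.pres_iff T T).1 (pres_T hT)
  have e1 : ∀ w, ss u φ x k l o * (∑ b', T (φ k a) (φ k b') • u b' w) =
      ss u φ x k l o * ∑ v, T (φ l v) (φ l w) • u a v := by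
    intro w
    calc ss u φ x k l o * (∑ b', T (φ k a) (φ k b') • u b' w)
        = (∑ b', T (φ k a) (φ k b') • u (φ k b') (φ l w)) * ss u φ x k l o := by
          rw [Finset.mul_sum, Finset.sum_mul]
          refine Finset.sum_congr rfl fun b' _ => ?_
          rw [mul_smul_comm, h.conj, smul_mul_assoc]
      _ = (∑ c, T (φ k a) c • u c (φ l w)) * ss u φ x k l o := by
          rw [h.c.sum_flip k (fun c => T (φ k a) c • u c (φ l w))]
      _ = (∑ v, T v (φ l w) • u (φ k a) v) * ss u φ x k l o := by rw [p1]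
      _ = (∑ v, T (φ l v) (φ l w) • u (φ k a) (φ l v)) * ss u φ x k l o := by
          rw [h.c.sum_flip l (fun v => T v (φ l w) • u (φ k a) v)]
      _ = _ := by
          rw [Finset.mul_sum, Finset.sum_mul]
          refine Finset.sum_congr rfl fun v _ => ?_
          rw [mul_smul_comm, h.conj, smul_mul_assoc]
  have e2 : ∑ b', T (φ k a) (φ k b') • Mq u φ l b' b =
      ∑ w, (∑ b', T (φ k a) (φ k b') • u b' w) * u b (φ l w) := by
    unfold Mq
    simp only [Finset.smul_sum, Finset.sum_mul, smul_mul_assoc]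
    rw [Finset.sum_comm]
  have e3 : ∑ a', T a' b • Mq u φ l a a' =
      ∑ w, (∑ v, T (φ l v) (φ l w) • u a v) * u b (φ l w) := by
    calc ∑ a', T a' b • Mq u φ l a a' = ∑ v, u a v * ∑ a', T a' b • u a' (φ l v) := by
          unfold Mq
          simp only [Finset.smul_sum, Finset.mul_sum, mul_smul_comm]
          rw [Finset.sum_comm]
      _ = ∑ v, u a v * ∑ w, T (φ l v) w • u b w := by
          refine Finset.sum_congr rfl fun v _ => ?_
          rw [p2]
      _ = ∑ v, u a v * ∑ w, T (φ l v) (φ l w) • u b (φ l w) := by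
          refine Finset.sum_congr rfl fun v _ => ?_
          rw [h.c.sum_flip l (fun w => T (φ l v) w • u b w)]
      _ = _ := by
          simp only [Finset.mul_sum, Finset.sum_mul, mul_smul_comm, smul_mul_assoc]
          rw [Finset.sum_comm]
  rw [e2, e3, Finset.mul_sum, Finset.mul_sum]
  refine Finset.sum_congr rfl fun w _ => ?_
  rw [← mul_assoc, e1, mul_assoc]

theorem QC.key1 (h : QC G u φ x dd) {T : V → V → ℝ} (hT : QIso.Pres u T T) (k k' l : D)
    (o : V) (hne : ss u φ x k l o * ss u φ x k' l o ≠ 0) (a b : V) :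
    T (φ k (φ k' a)) (φ k (φ k' b)) = T a b := by
  have hc : ∀ a w, ss u φ x k l o * ss u φ x k' l o * u a w =
      u (φ k (φ k' a)) w * (ss u φ x k l o * ss u φ x k' l o) := by
    intro a w
    rw [mul_assoc, h.conj, ← mul_assoc, h.conj, h.c.inv, mul_assoc]
  generalize ss u φ x k l o * ss u φ x k' l o = c at hne hc
  have h1 : ∃ w v, c * u a w * u b v ≠ 0 := by
    by_contra hall
    push Not at hall
    apply hne
    apply h.q.eq_zero_right a
    intro w
    apply h.q.eq_zero_right b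
    intro v
    exact hall w v
  obtain ⟨w, v, hwv⟩ := h1
  have h2 : T a b = T w v := by
    by_contra h3
    exact hwv (by rw [mul_assoc, hT a b w v h3, mul_zero])
  have h3 : T (φ k (φ k' a)) (φ k (φ k' b)) = T w v := by
    by_contra h3
    apply hwv
    rw [hc, mul_assoc, hc, ← mul_assoc, hT _ _ w v h3, zero_mul]
  rw [h2, h3]

theorem QC.key2 (hB : ∀ x : B, star x * x = 0 → x = 0) (h : QC G u φ x dd) {T : V → V → ℝ}
    (hT : QIso.Pres u T T) (k k' l : D) (hk : k ≠ k')
    (o : V) (hne : ss u φ x k l o * ss u φ x k' l o ≠ 0) (a b : V)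
    (hab : x k a * x k' a ≠ x k b * x k' b) : T a (φ k (φ k' b)) = T a b := by
  have hr := h.rel hT k l (φ k a) b o
  rw [h.c.inv] at hr
  have e1 : ∑ b', T a (φ k b') • Mq u φ l b' b =
      (∑ j, (T a (φ k (φ j b)) * x j b) • ss u φ x j l o) * al u (x l) b := by
    rw [h.c.sum_nb b, Finset.sum_mul]
    · refine Finset.sum_congr rfl fun j _ => ?_
      rw [h.Mq_left j l b o, smul_smul, smul_mul_assoc]
    · intro b' hb'
      rw [h.Mq_zero l b' b, smul_zero]
      rintro ⟨j, hj⟩
      exact hb' ⟨j, by rw [hj, h.c.inv]⟩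
  have e2 : ∑ a', T a' b • Mq u φ l (φ k a) a' =
      al u (x l) (φ k a) *
        (∑ j, (T (φ j (φ k a)) b * x j (φ k a)) • ss u φ x j l o) := by
    rw [h.c.sum_nb (φ k a), Finset.mul_sum]
    · refine Finset.sum_congr rfl fun j _ => ?_
      rw [h.Mq_right j l (φ k a) o, smul_smul, mul_smul_comm]
    · intro a' ha'
      rw [h.Mq_zero l _ a' ha', smul_zero]
  rw [e1, e2, ← sub_eq_zero, ← mul_sub] at hr
  have hc := cliff hB (h.star_ss k l o) (h.star_ss k' l o) (h.anti_s k k' l hk.symm o)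
    (h.anti_sum k l o _) (h.anti_y k l b o) (h.anti_y k l (φ k a) o) (h.anti_sum k l o _)
    (h.anti_sum k' l o _) (h.anti_y k' l b o) (h.anti_y k' l (φ k a) o) (h.anti_sum k' l o _)
    hr hne
  have k1 := h.key1 hT k k' l o hne (φ k' (φ k a)) b
  rw [h.c.inv, h.c.inv] at k1
  rw [h.c.inv, h.c.inv, h.c.flip, h.c.other k' k a hk, ← k1] at hc
  have h5 : (x k b * x k' b - x k a * x k' a) * (T a b - T a (φ k (φ k' b))) = 0 := by
    linear_combination hc
  rcases mul_eq_zero.1 h5 with h6 | h6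
  · exact absurd (by linarith) hab
  · linarith

theorem QC.good (hB : ∀ x : B, star x * x = 0 → x = 0) (h : QC G u φ x dd) {T : V → V → ℝ}
    (hT : QIso.Pres u T T)
    (hno : ∀ l l', l ≠ l' → ¬ ((∀ a b, T (φ l (φ l' a)) (φ l (φ l' b)) = T a b) ∧
      ∀ a b, x l a * x l' a ≠ x l b * x l' b → T a (φ l (φ l' b)) = T a b))
    (k l l' : D) (hl : l ≠ l') (a w : V) :
    u a w * u (φ k a) (φ l w) * u a (φ l' (φ l w)) = 0 := by
  have h0 : ss u φ x k l a * ss u φ x k l' a = 0 := by
    by_contra hne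
    rw [h.ss_eq k l a a, h.ss_eq k l' a a] at hne
    exact hno l l' hl ⟨h.transpose.key1 (pres_T hT) l l' k a hne,
      h.transpose.key2 hB (pres_T hT) l l' k hl a hne⟩
  have h1 := h.F1' k l' (φ k a) (φ l w) a
  rw [h.c.inv] at h1
  rw [mul_assoc, h1, mul_smul_comm, ← mul_assoc, h.F1' k l a w a, smul_mul_assoc, mul_assoc, h0]
  simp

end

end Pool.Agent.H266Z.DS
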