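import Pool.Agent.H266Z.DS.NK
import Pool.Agent.H266Z.DS.Cliff

set_option autoImplicit false
set_option linter.unusedSectionVars false
set_option linter.unusedVariables false

namespace Pool.Agent.H266Z.DS

open Pool.Agent.H741.QS

open Classical in
/-- another element -/
noncomputable def oth {α : Type} (p : α) : α := if h : ∃ q, q ≠ p then h.choose else p

open Classical in
/-- a sign -/
noncomputable def sg {α : Type} (p : α) : ℝ := if p = Classical.choice ⟨p⟩ then 1 else -1

section two

variable {α : Type} [Fintype α]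

theorem oth_ne (h : Fintype.card α = 2) (p : α) : oth p ≠ p := by
  have h1 : ∃ q, q ≠ p := Fintype.exists_ne_of_one_lt_card (by omega) p
  unfold oth
  rw [dif_pos h1]
  exact h1.choose_spec

theorem eq_oth (h : Fintype.card α = 2) {p q : α} (hq : q ≠ p) : q = oth p := by
  classical
  by_contra hn
  have h3 : ({p, q, oth p} : Finset α).card = 3 := by
    rw [Finset.card_eq_three]
    exact ⟨_, _, _, hq.symm, (oth_ne h p).symm, hn, rfl⟩
  have h4 := Finset.card_le_univ ({p, q, oth p} : Finset α)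
  omega

theorem oth_oth (h : Fintype.card α = 2) (p : α) : oth (oth p) = p :=
  (eq_oth h (oth_ne h p).symm).symm

theorem sg_sq (p : α) : sg p * sg p = 1 := by
  unfold sg
  split_ifs <;> norm_num

theorem sg_cases (p : α) : sg p = 1 ∨ sg p = -1 := by
  unfold sg
  split_ifs
  · exact Or.inl rfl
  · exact Or.inr rfl

theorem sg_oth (h : Fintype.card α = 2) (p : α) : sg (oth p) = - sg p := by
  have e : Classical.choice (⟨oth p⟩ : Nonempty α) = Classical.choice ⟨p⟩ := rfl
  unfold sg
  rw [e]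
  generalize Classical.choice (⟨p⟩ : Nonempty α) = c
  by_cases h1 : p = c
  · rw [if_pos h1, if_neg (by rw [← h1]; exact oth_ne h p)]
  · rw [if_neg h1, if_pos (eq_oth h (Ne.symm h1)).symm]
    norm_num

theorem adj_oth (h : Fintype.card α = 2) (G : SimpleGraph α) (hG : G.Connected) (p : α) :
    G.Adj p (oth p) := by
  have : Nontrivial α := Fintype.one_lt_card_iff_nontrivial.1 (by omega)
  obtain ⟨q, hq⟩ := hG.preconnected.exists_adj_of_nontrivial p
  rw [← eq_oth h hq.ne']
  exact hq

theorem dist_oth (h : Fintype.card α = 2) (G : SimpleGraph α) (hG : G.Connected) (p q : α) :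
    (G.dist p q : ℝ) - G.dist (oth p) q = - (sg p * sg q) := by
  have h1 : G.dist p (oth p) = 1 := SimpleGraph.dist_eq_one_iff_adj.2 (adj_oth h G hG p)
  by_cases hq : q = p
  · rw [hq, SimpleGraph.dist_self, SimpleGraph.dist_comm, h1, sg_sq]
    norm_num
  · rw [eq_oth h hq, SimpleGraph.dist_self, h1, sg_oth h, mul_neg, sg_sq]
    norm_num

end two

section

variable {J : Type} [Fintype J] [DecidableEq J] {P : J → Type} [∀ k, Fintype (P k)]

/-- the flip of a coordinate -/
noncomputable def fl (k : J) (a : ∀ k, P k) : ∀ k, P k := Function.update a k (oth (a k))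

theorem fl_self (k : J) (a : ∀ k, P k) : fl k a k = oth (a k) := by simp [fl]

theorem fl_ne {k j : J} (h : j ≠ k) (a : ∀ k, P k) : fl k a j = a j := by
  simp [fl, Function.update_of_ne h]

theorem fl_fl {k : J} (hk : Fintype.card (P k) = 2) (a : ∀ k, P k) : fl k (fl k a) = a := by
  funext j
  by_cases hj : j = k
  · subst hj
    rw [fl_self, fl_self, oth_oth hk]
  · rw [fl_ne hj, fl_ne hj]

theorem fl_comm (k j : J) (a : ∀ k, P k) : fl k (fl j a) = fl j (fl k a) := by
  by_cases hkj : k = j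
  · rw [hkj]
  funext i
  by_cases hik : i = k
  · subst hik
    rw [fl_self, fl_ne hkj, fl_ne hkj, fl_self]
  · by_cases hij : i = j
    · subst hij
      rw [fl_self, fl_ne hik, fl_ne hik, fl_self]
    · rw [fl_ne hik, fl_ne hij, fl_ne hij, fl_ne hik]

theorem dirAdj_fl (G : ∀ k, SimpleGraph (P k)) (hG : ∀ k, (G k).Connected) {k : J}
    (hk : Fintype.card (P k) = 2) (a : ∀ k, P k) : DirAdj G k a (fl k a) :=
  ⟨by rw [fl_self]; exact adj_oth hk _ (hG k) _, fun j hj => (fl_ne hj a).symm⟩

theorem eq_fl (G : ∀ k, SimpleGraph (P k)) {k : J}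
    (hk : Fintype.card (P k) = 2) {a b : ∀ k, P k} (h : DirAdj G k a b) : b = fl k a := by
  funext j
  by_cases hj : j = k
  · subst hj
    rw [fl_self]
    exact eq_oth hk h.1.ne'
  · rw [fl_ne hj]
    exact (h.2 j hj).symm

variable {A : Type} [Ring A] [StarRing A] [Algebra ℝ A] [StarModule ℝ A]

theorem row_fl (G : ∀ k, SimpleGraph (P k)) (hG : ∀ k, (G k).Connected)
    (hP : ∀ k, 2 ≤ Fintype.card (P k)) (hprime : ∀ k, PrimeGraph (G k))
    (hB : ∀ x : A, star x * x = 0 → x = 0)
    (u : (∀ k, P k) → (∀ k, P k) → A) (h : QIso (boxPi G) (boxPi G) u)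
    (k : {k : J // Fintype.card (P k) = 2}) (a w v : ∀ k, P k)
    (hne : u a w * u (fl k.1 a) v ≠ 0) :
    ∃ l : {k : J // Fintype.card (P k) = 2}, v = fl l.1 w := by
  have hd := dirAdj_fl G hG k.2 a
  have hwv : (boxPi G).Adj w v := by
    by_contra hn
    exact hne (h.adj _ _ _ _ fun h' => hn (h'.1 ⟨k.1, hd⟩))
  obtain ⟨l, hl⟩ := hwv
  by_cases hl2 : Fintype.card (P l) = 2
  · exact ⟨⟨l, hl2⟩, eq_fl G hl2 hl⟩
  · exact absurd (big_small G hG hP hprime hB (fun w a => u a w) h.transpose l k.1 hl2 k.2 hl hd)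
      hne

theorem qc_box (G : ∀ k, SimpleGraph (P k)) (hG : ∀ k, (G k).Connected)
    (hP : ∀ k, 2 ≤ Fintype.card (P k)) (hprime : ∀ k, PrimeGraph (G k))
    (hB : ∀ x : A, star x * x = 0 → x = 0)
    (u : (∀ k, P k) → (∀ k, P k) → A) (h : QIso (boxPi G) (boxPi G) u) :
    QC (D := {k : J // Fintype.card (P k) = 2}) (boxPi G) u (fun k a => fl k.1 a)
      (fun k a => sg (a k.1)) (fun a b => ((boxPi G).dist a b : ℝ)) where
  q := h
  c :=
    { inv := fun k a => fl_fl k.2 a
      sq := fun k a => sg_sq _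
      flip := fun k a => by rw [fl_self, sg_oth k.2]
      other := fun k j a hj => by rw [fl_ne (fun e => hj (Subtype.ext e.symm))]
      comm := fun k j a => fl_comm _ _ a
      dsymm := fun a b => by rw [SimpleGraph.dist_comm]
      dflip := fun k a c => by
        have h1 := dist_diff G hG k.1 a (fl k.1 a) c (fun j hj => (fl_ne hj a).symm)
        have h2 := dist_oth k.2 (G k.1) (hG k.1) (a k.1) (c k.1)
        rw [fl_self] at h1
        rw [← h2]
        exact_mod_cast h1 }
  pd := fun a b w v hne => h.dist_rel (boxPi_connected G hG) (boxPi_connected G hG)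
    (fun h' => hne (by simp [h']))
  row := fun k a w v hne => row_fl G hG hP hprime hB u h k a w v hne
  col := fun l a b w hne => row_fl G hG hP hprime hB (fun w a => u a w) h.transpose l w a b hne

theorem all_good' (G : ∀ k, SimpleGraph (P k)) (hG : ∀ k, (G k).Connected)
    (hP : ∀ k, 2 ≤ Fintype.card (P k)) (hprime : ∀ k, PrimeGraph (G k))
    (hB : ∀ x : A, star x * x = 0 → x = 0)
    (u : (∀ k, P k) → (∀ k, P k) → A) (h : QIso (boxPi G) (boxPi G) u)
    (H : SimpleGraph (∀ k, P k)) (hH : QIso H H u)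
    (hno : ∀ l l' : J, Fintype.card (P l) = 2 → Fintype.card (P l') = 2 → l ≠ l' →
      ¬ ((∀ a b, H.Adj a b → H.Adj (fl l (fl l' a)) (fl l (fl l' b))) ∧
      ∀ a b, sg (a l) * sg (a l') ≠ sg (b l) * sg (b l') → H.Adj a b → H.Adj a (fl l (fl l' b))))
    (l : J) {a b : ∀ k, P k} (hab : (boxPi G).Adj a b) :
    Good (boxPi G) (fun w : ∀ k, P k => w l) (rest P l) u a b := by
  classical
  obtain ⟨k, hk⟩ := hab
  by_cases hk2 : Fintype.card (P k) = 2
  swap
  · exact good_big G hG hB u h k l (noK2_of_prime (G k) (hprime k) (hP k) hk2) hk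
  intro w v w' hwv h2 hvw h1
  have d1 : DirAdj G l w v := (dir1_iff G l w v).1 ⟨hwv, h2⟩
  by_cases hl2 : Fintype.card (P l) = 2
  swap
  · have := big_small G hG hP hprime hB (fun w a => u a w) h.transpose l k hl2 hk2 d1 hk
    rw [this, zero_mul]
  obtain ⟨l', d2⟩ := hvw
  have hll : l ≠ l' := by
    rintro rfl
    exact d2.1.ne h1
  have hk' : DirAdj G k b a := ⟨hk.1.symm, fun j hj => (hk.2 j hj).symm⟩
  by_cases hl2' : Fintype.card (P l') = 2
  swap
  · have := big_small G hG hP hprime hB (fun w a => u a w) h.transpose l' k hl2' hk2 d2 hk'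
    rw [mul_assoc, this, mul_zero]
  have hq := qc_box G hG hP hprime hB u h
  have hT := hH.pres_adj
  have hg := hq.good hB hT (by
    rintro j j' hj ⟨c1, c2⟩
    refine hno j.1 j'.1 j.2 j'.2 (fun e => hj (Subtype.ext e)) ⟨fun a b hab => ?_,
      fun a b hs hab => ?_⟩
    · have h3 := c1 a b
      by_contra hn
      simp only [if_pos hab, if_neg hn] at h3
      norm_num at h3
    · have h3 := c2 a b hs
      by_contra hn
      simp only [if_pos hab, if_neg hn] at h3
      norm_num at h3) ⟨k, hk2⟩ ⟨l, hl2⟩ ⟨l', hl2'⟩ (fun e => hll (congrArg Subtype.val e)) a w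
  rw [eq_fl G hl2' d2, eq_fl G hl2 d1, eq_fl G hk2 hk]
  exact hg

end

end Pool.Agent.H266Z.DS
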