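import Pool.Agent.H767R3.DS.All3
import Pool.Agent.H266Z.DS.Two

set_option autoImplicit false
set_option linter.unusedSectionVars false
set_option linter.unusedVariables false

namespace Pool.Agent.H266Z.DS

open Pool.Agent.H741.QS Pool.Agent.H767R3.DS

section

variable {ι : Type} [Fintype ι] [DecidableEq ι] {P : ι → Type} [∀ i, Fintype (P i)]

theorem same_copy (X : SimpleGraph (∀ i, P i)) [Nonempty (∀ i, P i)] {i j : ι}
    (hi : Fintype.card (P i) = 2) (hj : Fintype.card (P j) = 2) (hij : i ≠ j)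
    (c1 : ∀ a b, X.Adj a b → X.Adj (fl i (fl j a)) (fl i (fl j b)))
    (c2 : ∀ a b, sg (a i) * sg (a j) ≠ sg (b i) * sg (b j) → X.Adj a b →
      X.Adj a (fl i (fl j b))) : ¬ NoQuantumSymmetry X := by
  classical
  obtain ⟨t, ht⟩ : ∃ t : (∀ i, P i) → ℝ, ∀ a, t a = sg (a i) * sg (a j) := ⟨_, fun _ => rfl⟩
  obtain ⟨ψ, hψ⟩ : ∃ ψ : (∀ i, P i) → (∀ i, P i), ∀ a, ψ a = fl i (fl j a) := ⟨_, fun _ => rfl⟩
  simp only [← ht, ← hψ] at c1 c2
  have t1 : ∀ a, t a = 1 ∨ t a = -1 := by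
    intro a
    rw [ht]
    rcases sg_cases (a i) with h1 | h1 <;> rcases sg_cases (a j) with h2 | h2 <;>
      rw [h1, h2] <;> norm_num
  have t2 : ∀ a, t (ψ a) = t a := by
    intro a
    rw [ht, ht, hψ, fl_self, fl_ne hij, fl_ne hij.symm, fl_self, sg_oth hi, sg_oth hj]
    ring
  have t3 : ∀ a, t (fl i a) = - t a := by
    intro a
    rw [ht, ht, fl_self, fl_ne hij.symm, sg_oth hi]
    ring
  have p1 : ∀ a, ψ (ψ a) = a := by
    intro a
    rw [hψ, hψ, fl_comm j i, fl_fl hi, fl_fl hj]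
  have p2 : ∀ a, ψ a ≠ a := by
    intro a h
    have h1 := congrFun h i
    rw [hψ, fl_self, fl_ne hij] at h1
    exact oth_ne hi _ h1
  obtain ⟨a0⟩ := ‹Nonempty (∀ i, P i)›
  have ex : ∃ a b, t a = 1 ∧ ¬ t b = 1 := by
    rcases t1 a0 with h | h
    · refine ⟨a0, fl i a0, h, ?_⟩
      rw [t3, h]
      norm_num
    · refine ⟨fl i a0, a0, ?_, ?_⟩
      · rw [t3, h]
        norm_num
      · rw [h]
        norm_num
  obtain ⟨a, b, ha, hb⟩ := ex
  refine qsn_key X (fun z => if t z = 1 then ψ z else z) (fun z => if t z = 1 then z else ψ z)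
    ?_ ?_ ?_ ?_ ?_ a b ?_ ?_
  · intro z
    by_cases h : t z = 1
    · simp only [if_pos h, if_pos ((t2 z).trans h), p1]
    · simp only [if_neg h]
  · intro z
    by_cases h : t z = 1
    · simp only [if_pos h]
    · have h' : ¬ t (ψ z) = 1 := by rw [t2]; exact h
      simp only [if_neg h, if_neg h', p1]
  · intro z y hzy
    by_cases h1 : t z = 1 <;> by_cases h2 : t y = 1
    · simp only [if_pos h1, if_pos h2]
      exact c1 _ _ hzy
    · simp only [if_pos h1, if_neg h2]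
      exact (c2 y z (fun e => h2 (e.trans h1)) hzy.symm).symm
    · simp only [if_neg h1, if_pos h2]
      exact c2 z y (fun e => h1 (e.trans h2)) hzy
    · simp only [if_neg h1, if_neg h2]
      exact hzy
  · intro z y hzy
    by_cases h1 : t z = 1 <;> by_cases h2 : t y = 1
    · simp only [if_pos h1, if_pos h2]
      exact hzy
    · simp only [if_pos h1, if_neg h2]
      exact c2 z y (fun e => h2 (e.symm.trans h1)) hzy
    · simp only [if_neg h1, if_pos h2]
      exact (c2 y z (fun e => h1 (e.symm.trans h2)) hzy.symm).symm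
    · simp only [if_neg h1, if_neg h2]
      exact c1 _ _ hzy
  · intro z
    by_cases h : t z = 1
    · right; simp only [if_pos h]
    · left; simp only [if_neg h]
  · simp only [if_pos ha]
    exact p2 a
  · simp only [if_neg hb]
    exact p2 b

theorem ex_same (X : SimpleGraph (∀ i, P i)) (hX : ¬ X.Colorable 2) (j : ι) :
    ∃ a b, X.Adj a b ∧ sg (a j) = sg (b j) := by
  classical
  by_contra hn
  push Not at hn
  apply hX
  have C : X.Coloring Bool := SimpleGraph.Coloring.mk (fun a => decide (sg (a j) = 1)) (by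
    intro a b hab h
    have h1 := hn a b hab
    rcases sg_cases (a j) with h2 | h2 <;> rcases sg_cases (b j) with h3 | h3
    · exact h1 (h2.trans h3.symm)
    · rw [h2, h3] at h
      norm_num at h
    · rw [h2, h3] at h
      norm_num at h
    · exact h1 (h2.trans h3.symm))
  simpa using C.colorable

theorem ex_diff (X : SimpleGraph (∀ i, P i)) (hX : X.Connected) {j : ι}
    (hj : Fintype.card (P j) = 2) : ∃ a b, X.Adj a b ∧ sg (a j) = - sg (b j) := by
  by_contra hn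
  push Not at hn
  have hw : ∀ (s t : ∀ i, P i) (W : X.Walk s t), sg (s j) = sg (t j) := by
    intro s t W
    induction W with
    | nil => rfl
    | @cons a b c hadj _ ih =>
      rw [← ih]
      have h1 := hn a b hadj
      rcases sg_cases (a j) with h2 | h2 <;> rcases sg_cases (b j) with h3 | h3
      · exact h2.trans h3.symm
      · exact absurd (by rw [h2, h3]; norm_num) h1
      · exact absurd (by rw [h2, h3]) h1
      · exact h2.trans h3.symm
  obtain ⟨a⟩ := hX.nonempty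
  obtain ⟨W⟩ := hX.preconnected a (fl j a)
  have h1 := hw _ _ W
  rw [fl_self, sg_oth hj] at h1
  have h2 := sg_sq (a j)
  have h3 : sg (a j) = 0 := by linarith
  rw [h3] at h2
  norm_num at h2

theorem diff_copy (X : SimpleGraph (∀ i, P i)) (h1 : X.Connected) (h2 : ¬ X.Colorable 2)
    {i j : ι} (hi : Fintype.card (P i) = 2) (hj : Fintype.card (P j) = 2)
    (c2 : ∀ a b c d, sg (a i) * sg (c j) ≠ sg (b i) * sg (d j) → X.Adj a b → X.Adj c d →
      X.Adj a (fl i b)) : ¬ TwinFree X := by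
  obtain ⟨c, d, hcd, e1⟩ := ex_same X h2 j
  obtain ⟨c', d', hcd', e2⟩ := ex_diff X h1 hj
  have key : ∀ a b, X.Adj a b → X.Adj a (fl i b) := by
    intro a b hab
    by_cases h : sg (a i) = sg (b i)
    · refine c2 a b c' d' ?_ hab hcd'
      rw [h, e2]
      rcases sg_cases (b i) with h3 | h3 <;> rcases sg_cases (d' j) with h4 | h4 <;>
        rw [h3, h4] <;> norm_num
    · refine c2 a b c d ?_ hab hcd
      rw [e1]
      intro h3
      apply h
      rcases sg_cases (d j) with h4 | h4 <;> rw [h4] at h3 <;> linarith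
  intro ht
  have h3 := ht c (fl i c) (fun z => ⟨fun h => (key z c h.symm).symm, fun h => by
    have h4 := key z _ h.symm
    rw [fl_fl hi] at h4
    exact h4.symm⟩)
  have h4 := congrFun h3 i
  rw [fl_self] at h4
  exact oth_ne hi _ h4.symm

/-- one of the two copies -/
def cp (β : Bool) (z : ∀ k : ι × Bool, P k.1) : ∀ i, P i := fun i => z (i, β)

/-- the point with given copies -/
def emb (β : Bool) (a c : ∀ i, P i) : ∀ k : ι × Bool, P k.1 :=
  fun k => if k.2 = β then a k.1 else c k.1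

theorem cp_emb (β : Bool) (a c : ∀ i, P i) : cp β (emb β a c) = a := by
  funext i
  simp [cp, emb]

theorem cp_emb' (β : Bool) (a c : ∀ i, P i) : cp (!β) (emb β a c) = c := by
  funext i
  simp [cp, emb]

theorem r2_adj (X : SimpleGraph (∀ i, P i)) (β : Bool) (z y : ∀ k : ι × Bool, P k.1) :
    (R2 X).Adj z y ↔ X.Adj (cp β z) (cp β y) ∧ X.Adj (cp (!β) z) (cp (!β) y) := by
  cases β
  · exact Iff.rfl
  · exact and_comm

theorem cp_fl (β : Bool) (i : ι) (z : ∀ k : ι × Bool, P k.1) :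
    cp β (fl (P := fun k : ι × Bool => P k.1) (i, β) z) = fl i (cp β z) := by
  funext j
  by_cases hj : j = i
  · subst hj
    rw [fl_self]
    exact fl_self (P := fun k : ι × Bool => P k.1) (j, β) z
  · rw [fl_ne hj]
    exact fl_ne (P := fun k : ι × Bool => P k.1) (k := (i, β)) (j := (j, β))
      (fun e => hj (congrArg Prod.fst e)) z

theorem cp_fl' {β γ : Bool} (h : β ≠ γ) (i : ι) (z : ∀ k : ι × Bool, P k.1) :
    cp β (fl (P := fun k : ι × Bool => P k.1) (i, γ) z) = cp β z := by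
  funext j
  exact fl_ne (P := fun k : ι × Bool => P k.1) (k := (i, γ)) (j := (j, β))
      (fun e => h (congrArg Prod.snd e)) z

theorem no_sym (X : SimpleGraph (∀ i, P i)) (h1 : X.Connected) (h2 : ¬ X.Colorable 2)
    (h3 : TwinFree X) (h4 : NoQuantumSymmetry X) (l l' : ι × Bool)
    (hl : Fintype.card (P l.1) = 2) (hl' : Fintype.card (P l'.1) = 2) (hne : l ≠ l') :
    ¬ ((∀ a b, (R2 X).Adj a b → (R2 X).Adj
        (fl (P := fun k : ι × Bool => P k.1) l (fl (P := fun k : ι × Bool => P k.1) l' a))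
        (fl (P := fun k : ι × Bool => P k.1) l (fl (P := fun k : ι × Bool => P k.1) l' b))) ∧
      ∀ a b, sg (a l) * sg (a l') ≠ sg (b l) * sg (b l') → (R2 X).Adj a b → (R2 X).Adj a
        (fl (P := fun k : ι × Bool => P k.1) l (fl (P := fun k : ι × Bool => P k.1) l' b))) := by
  obtain ⟨i, β⟩ := l
  obtain ⟨j, γ⟩ := l'
  rintro ⟨c1, c2⟩
  have := h1.nonempty
  obtain ⟨c, d, hcd, -⟩ := ex_same X h2 j
  by_cases hb : γ = β
  · subst hb
    refine same_copy X hl hl' (fun e => hne (by simp only at e; rw [e])) ?_ ?_ h4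
    · intro a b hab
      have h5 := c1 (emb γ a c) (emb γ b d) (by
        rw [r2_adj X γ, cp_emb, cp_emb, cp_emb', cp_emb']; exact ⟨hab, hcd⟩)
      rw [r2_adj X γ, cp_fl, cp_fl, cp_fl, cp_fl, cp_emb, cp_emb] at h5
      exact h5.1
    · intro a b hs hab
      have h5 := c2 (emb γ a c) (emb γ b d) (by simpa [emb] using hs) (by
        rw [r2_adj X γ, cp_emb, cp_emb, cp_emb', cp_emb']; exact ⟨hab, hcd⟩)
      rw [r2_adj X γ, cp_fl, cp_fl, cp_emb, cp_emb] at h5
      exact h5.1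
  · refine diff_copy X h1 h2 hl hl' ?_ h3
    intro a b c d hs hab hcd
    have h5 := c2 (emb β a c) (emb β b d) (by simpa [emb, hb] using hs) (by
      rw [r2_adj X β, cp_emb, cp_emb, cp_emb', cp_emb']; exact ⟨hab, hcd⟩)
    rw [r2_adj X β, cp_fl, cp_fl' (Ne.symm hb), cp_emb, cp_emb] at h5
    exact h5.1

end

/-- assembly without a condition on the factors -/
def St_W' : Prop := ∀ (ι : Type) [Fintype ι] [DecidableEq ι] (P : ι → Type) [∀ i, Fintype (P i)]
  (G : ∀ i, SimpleGraph (P i)), (∀ i, (G i).Connected) → (∀ i, 2 ≤ Fintype.card (P i)) →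
  (∀ i, PrimeGraph (G i)) → ∀ (X : SimpleGraph (∀ i, P i)), X.Connected → ¬ X.Colorable 2 →
  TwinFree X → (∃ a b, X.Adj a b) → NoQuantumSymmetry X → ∀ (A : Type) [CStarAlgebra A]
  (u : ((∀ i, P i) × (∀ i, P i)) → ((∀ i, P i) × (∀ i, P i)) → A),
    QIso (boxPi G □ boxPi G) (boxPi G □ boxPi G) u → QIso (dir X X) (dir X X) u →
    ∀ x y z w, u x y * u z w = u z w * u x y

open Waux

theorem t_W' (hF : St_F) (hU : St_U) (hZ : St_Z) (hY : St_Y) (hV : St_V) : St_W' := by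
  classical
  intro ι _ _ P _ G hG hP hprime X hXc hXb hXt hneX hNQ A _ u h0 hdir x0 y0 z0 w0
  obtain ⟨Ψ0, hΨ0⟩ := exists_iso_split G (fun i => (i, false)) (fun i => (i, true))
    Function.bijective_id Function.bijective_id bij_const
  obtain ⟨u1, hu1⟩ : ∃ u1 : (∀ k : ι × Bool, P k.1) → (∀ k : ι × Bool, P k.1) → A,
      ∀ z w, u1 z w = u (Ψ0 z) (Ψ0 w) := ⟨fun z w => u (Ψ0 z) (Ψ0 w), fun _ _ => rfl⟩
  have hu1e : u1 = fun a w => u (Ψ0 a) (Ψ0 w) := by funext a w; exact hu1 a w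
  have hq1 : QIso (boxPi (fun k : ι × Bool => G k.1)) (boxPi (fun k : ι × Bool => G k.1)) u1 := by
    have h := h0.transport Ψ0 Ψ0
    rw [hu1e]; exact h
  have hΨ01 : ∀ a, (Ψ0 a).1 = fun i => a (i, false) := fun a => funext fun i => (hΨ0 a i).1
  have hΨ02 : ∀ a, (Ψ0 a).2 = fun i => a (i, true) := fun a => funext fun i => (hΨ0 a i).2
  have hR1 : QIso (R2 X) (R2 X) u1 := by
    let φ : R2 X ≃g dir X X := mkIso Ψ0.toEquiv (by
      intro a b
      show (X.Adj (Ψ0 a).1 (Ψ0 b).1 ∧ X.Adj (Ψ0 a).2 (Ψ0 b).2) ↔ _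
      rw [hΨ01, hΨ01, hΨ02, hΨ02]
      exact Iff.rfl)
    have h := hdir.transport φ φ
    rw [hu1e]; exact h
  obtain ⟨E, e1, e2, e3, e4, e5, e6⟩ := exists_central' (fun k : ι × Bool => G k.1)
    (fun k => hG k.1) (fun k => hP k.1) (fun k => hprime k.1)
    (fun x hx => CStarRing.star_mul_self_eq_zero_iff x |>.1 hx) u1 hq1
    (fun l a b hab => all_good' (fun k : ι × Bool => G k.1)
      (fun k => hG k.1) (fun k => hP k.1) (fun k => hprime k.1)
      (fun x hx => CStarRing.star_mul_self_eq_zero_iff x |>.1 hx) u1 hq1 (R2 X) hR1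
      (no_sym X hXc hXb hXt hNQ) l hab)
  by_contra hne
  have hx : u x0 y0 * u z0 w0 - u z0 w0 * u x0 y0 ≠ 0 := sub_ne_zero.2 hne
  obtain ⟨e, σ, he1, he2, he3, he4, he5⟩ := exists_pure E e1 e2 e3 e4
    (Set.range (fun p : (∀ k : ι × Bool, P k.1) × (∀ k : ι × Bool, P k.1) => u1 p.1 p.2))
    (by rintro k l _ ⟨p, rfl⟩; exact e5 k l p.1 p.2) _ hx
  have he3' : ∀ a w, e * u1 a w = u1 a w * e := fun a w => he3 _ ⟨(a, w), rfl⟩
  have he0 : e ≠ 0 := by
    rintro rfl
    exact he5 (zero_mul _)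
  have hEe : ∀ k, E k (σ k) * e = e := by
    intro k
    have h := congrArg star (he4 k)
    rwa [star_mul, he1, e1] at h
  have hσ : ∀ k a b w v, DirAdj (fun k : ι × Bool => G k.1) k a b →
      ¬ DirAdj (fun k : ι × Bool => G k.1) (σ k) w v → u1 a w * u1 b v * e = 0 := by
    intro k a b w v hd hn
    rw [← hEe k, ← mul_assoc, e6 k (σ k) a b w v hd hn, zero_mul]
  have hbij : Function.Bijective σ := sigma_bijective (fun k : ι × Bool => G k.1)
    (fun k => hG k.1) (fun k => hP k.1) u1 hq1 e he0 he2 he3' σ hσ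
  have hU' := hU (ι × Bool) (fun k => P k.1) (fun k => G k.1) (fun k => hG k.1) A u1 (R2 X) hq1 hR1
    e he0 he1 he2 he3' σ hbij hσ
  obtain ⟨Y1, Y2, Y3, Y4⟩ := hY ι P X
  have Y5 := Y4 hneX
  obtain ⟨κ, κ', hκ1, hκ2, hk1, hk2, hB1, hB2⟩ := hZ ι (Equiv.ofBijective σ hbij)
    {C | Spl X.Adj C} Y1 Y2 (fun C hC D hD => Y3 C D hC hD)
    (fun C h1 h2 => (Y5 (σ ⁻¹' C)).1 (hU' C ((Y5 C).2 ⟨h1, h2⟩)))
  have hκ1' : Function.Bijective (fun i => (σ (i, κ i)).1) := hκ1
  have hκ2' : Function.Bijective (fun i => (σ (i, !κ i)).1) := hκ2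
  have hk1' : ∀ i, (σ (i, κ i)).2 = κ' (σ (i, κ i)).1 := hk1
  have hk2' : ∀ i, (σ (i, !κ i)).2 = !κ' (σ (i, !κ i)).1 := hk2
  have hB1' : Spl X.Adj {i | κ i = false} := hB1
  have hB2' : Spl X.Adj {i | κ' i = false} := hB2
  have hs := bij_kappa κ
  have hs' : Function.Bijective (Sum.elim (fun i : ι => σ (i, κ i)) (fun i : ι => σ (i, !κ i))) := by
    have h : Sum.elim (fun i : ι => σ (i, κ i)) (fun i : ι => σ (i, !κ i)) =
        σ ∘ Sum.elim (fun i : ι => (i, κ i)) (fun i : ι => (i, !κ i)) := by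
      funext s; rcases s with s | s <;> rfl
    rw [h]
    exact hbij.comp hs
  obtain ⟨Φ, hΦ⟩ := exists_iso_split G (fun i => (i, κ i)) (fun i => (i, !κ i))
    Function.bijective_id Function.bijective_id hs
  obtain ⟨Ψ, hΨ⟩ := exists_iso_split G (fun i => σ (i, κ i)) (fun i => σ (i, !κ i)) hκ1' hκ2' hs'
  have hΦ1 : ∀ (a : (∀ i, P i) × (∀ i, P i)) i, a.1 i = Φ.symm a (i, κ i) := by
    intro a i
    have h := (hΦ (Φ.symm a) i).1
    rwa [Φ.apply_symm_apply] at h
  have hΦ2 : ∀ (a : (∀ i, P i) × (∀ i, P i)) i, a.2 i = Φ.symm a (i, !κ i) := by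
    intro a i
    have h := (hΦ (Φ.symm a) i).2
    rwa [Φ.apply_symm_apply] at h
  have hΨ1 : ∀ (a : (∀ i, P i) × (∀ i, P i)) i, a.1 (σ (i, κ i)).1 = Ψ.symm a (σ (i, κ i)) := by
    intro a i
    have h := (hΨ (Ψ.symm a) i).1
    rwa [Ψ.apply_symm_apply] at h
  have hΨ2 : ∀ (a : (∀ i, P i) × (∀ i, P i)) i, a.2 (σ (i, !κ i)).1 = Ψ.symm a (σ (i, !κ i)) := by
    intro a i
    have h := (hΨ (Ψ.symm a) i).2
    rwa [Ψ.apply_symm_apply] at h
  have hΨ1' : ∀ (a : (∀ i, P i) × (∀ i, P i)), a.1 = fun j => Ψ.symm a (j, κ' j) := by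
    intro a
    funext j
    obtain ⟨i, hi⟩ := hκ1'.2 j
    simp only at hi
    subst hi
    rw [hΨ1 a i]
    exact snd_eq (P := P) (Ψ.symm a) (σ (i, κ i)) _ (hk1' i)
  have hΨ2' : ∀ (a : (∀ i, P i) × (∀ i, P i)), a.2 = fun j => Ψ.symm a (j, !κ' j) := by
    intro a
    funext j
    obtain ⟨i, hi⟩ := hκ2'.2 j
    simp only at hi
    subst hi
    rw [hΨ2 a i]
    exact snd_eq (P := P) (Ψ.symm a) (σ (i, !κ i)) _ (hk2' i)
  have hΦ1' : ∀ (a : (∀ i, P i) × (∀ i, P i)), a.1 = fun j => Φ.symm a (j, κ j) :=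
    fun a => funext (hΦ1 a)
  have hΦ2' : ∀ (a : (∀ i, P i) × (∀ i, P i)), a.2 = fun j => Φ.symm a (j, !κ j) :=
    fun a => funext (hΦ2 a)
  have hX : (boxPi G).Connected := boxPi_connected G hG
  have : Nonempty (∀ i, P i) := hX.nonempty
  have hut := hq1.transport Φ.symm Ψ.symm
  have hdt : QIso (dir X X) (dir X X) (fun a w => u1 (Φ.symm a) (Ψ.symm w)) := by
    let φ : dir X X ≃g R2 X := mkIso Φ.symm.toEquiv (by
      intro a b
      show (R2 X).Adj (Φ.symm a) (Φ.symm b) ↔ (X.Adj a.1 b.1 ∧ X.Adj a.2 b.2)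
      rw [hV ι P X κ hB1' (Φ.symm a) (Φ.symm b), ← hΦ1' a, ← hΦ1' b, ← hΦ2' a, ← hΦ2' b])
    let ψ : dir X X ≃g R2 X := mkIso Ψ.symm.toEquiv (by
      intro a b
      show (R2 X).Adj (Ψ.symm a) (Ψ.symm b) ↔ (X.Adj a.1 b.1 ∧ X.Adj a.2 b.2)
      rw [hV ι P X κ' hB2' (Ψ.symm a) (Ψ.symm b), ← hΨ1' a, ← hΨ1' b, ← hΨ2' a, ← hΨ2' b])
    exact hR1.transport φ ψ
  have hend := hF (∀ i, P i) X (boxPi G) hX hneX hNQ A (fun a w => u1 (Φ.symm a) (Ψ.symm w)) hut
    hdt e he1 he2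
    (fun a w => he3' _ _) (by
      intro a b w v hab1 hab2 hwv
      obtain ⟨i0, hi0⟩ := hab1
      refine hσ (i0, κ i0) _ _ _ _ ?_ ?_
      · exact (split_core G (fun i => (i, κ i)) (fun i => (i, !κ i)) Function.bijective_id
          Function.bijective_id hs (Φ.symm a) (Φ.symm b) a.1 b.1 a.2 b.2 (hΦ1 a) (hΦ1 b)
          (hΦ2 a) (hΦ2 b) i0).2 ⟨hi0, hab2⟩
      · intro hd
        obtain ⟨d1, d2⟩ := (split_core G (fun i => σ (i, κ i)) (fun i => σ (i, !κ i)) hκ1' hκ2' hs'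
          (Ψ.symm w) (Ψ.symm v) w.1 v.1 w.2 v.2 (hΨ1 w) (hΨ1 v) (hΨ2 w) (hΨ2 v) i0).1 hd
        exact hwv ⟨⟨_, d1⟩, d2⟩) (by
      intro a b w v hab1 hab2 hwv
      obtain ⟨i0, hi0⟩ := hab2
      refine hσ (i0, !κ i0) _ _ _ _ ?_ ?_
      · exact (split_core G (fun i => (i, !κ i)) (fun i => (i, κ i)) Function.bijective_id
          Function.bijective_id (bij_swap hs) (Φ.symm a) (Φ.symm b) a.2 b.2 a.1 b.1 (hΦ2 a) (hΦ2 b)
          (hΦ1 a) (hΦ1 b) i0).2 ⟨hi0, hab1⟩
      · intro hd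
        obtain ⟨d1, d2⟩ := (split_core G (fun i => σ (i, !κ i)) (fun i => σ (i, κ i)) hκ2' hκ1'
          (bij_swap hs')
          (Ψ.symm w) (Ψ.symm v) w.2 v.2 w.1 v.1 (hΨ2 w) (hΨ2 v) (hΨ1 w) (hΨ1 v) i0).1 hd
        exact hwv ⟨d2, ⟨_, d1⟩⟩)
  have hut' : ∀ a w, u a w = u1 (Φ.symm (Φ (Ψ0.symm a))) (Ψ.symm (Ψ (Ψ0.symm w))) := by
    intro a w
    rw [Φ.symm_apply_apply, Ψ.symm_apply_apply, hu1, Ψ0.apply_symm_apply, Ψ0.apply_symm_apply]
  apply he5
  rw [mul_sub, sub_eq_zero, hut' x0 y0, hut' z0 w0]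
  exact hend _ _ _ _

theorem assembly' (hW : St_W') (V : Type) [Fintype V] [Nonempty V] (X S : SimpleGraph V)
    (hS : S.Connected) (hXc : X.Connected) (hXb : ¬ X.Colorable 2) (hXt : TwinFree X)
    (hadj : ∃ a b, X.Adj a b) (hq : NoQuantumSymmetry X)
    (A : Type) [CStarAlgebra A] (u : (V × V) → (V × V) → A)
    (h1 : QIso (S □ S) (S □ S) u) (h2 : QIso (dir X X) (dir X X) u) :
    ∀ x y z w, u x y * u z w = u z w * u x y := by
  classical
  obtain ⟨ι, i1, i2, P, i3, G, hG, ⟨e⟩⟩ := exists_aux' _ S rfl hS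
  let X' : SimpleGraph (∀ i, P i) := X.comap e.symm
  let f : X' ≃g X :=
    { toEquiv := e.symm.toEquiv
      map_rel_iff' := by
        intro a b
        rfl }
  have hX' : NoQuantumSymmetry X' := noqs_of_iso f.symm hq
  have k1 := h1.transport (prodCongr e.symm e.symm) (prodCongr e.symm e.symm)
  have k2 := h2.transport (dirCongr f f) (dirCongr f f)
  have hfe : ∀ a : (∀ i, P i) × (∀ i, P i), dirCongr f f a = prodCongr e.symm e.symm a :=
    fun a => rfl
  have hadj' : ∃ a b, X'.Adj a b := by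
    obtain ⟨a, b, hab⟩ := hadj
    refine ⟨e a, e b, ?_⟩
    show X.Adj (e.symm (e a)) (e.symm (e b))
    rw [e.symm_apply_apply, e.symm_apply_apply]
    exact hab
  have k3 := hW ι P G (fun i => (hG i).1) (fun i => (hG i).2.1) (fun i => (hG i).2.2)
    X' (f.connected_iff.2 hXc) (fun hc => hXb (hc.of_hom f.symm.toHom))
    (fun x y hxy => f.injective (hXt (f x) (f y) fun z => by
      have h5 := hxy (f.symm z)
      rw [← f.map_adj_iff, ← f.map_adj_iff, f.apply_symm_apply] at h5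
      exact h5)) hadj' hX' A
    (fun a w => u (prodCongr e.symm e.symm a) (prodCongr e.symm e.symm w)) k1 k2
  intro x y z w
  have k4 := k3 (prodCongr e e x) (prodCongr e e y) (prodCongr e e z) (prodCongr e e w)
  have hinv : ∀ a : V × V, prodCongr e.symm e.symm (prodCongr e e a) = a := by
    rintro ⟨a, b⟩
    show (e.symm (e a), e.symm (e b)) = (a, b)
    rw [e.symm_apply_apply, e.symm_apply_apply]
  simpa only [hinv] using k4

open Classical in
theorem suffCore' (hB : St_B) (hC : St_C) (hE : St_E) (hW : St_W')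
    (hJ : St_J) (hL : St_L) (V : Type) [Fintype V] (X : SimpleGraph V) (m : ℕ)
    (hm : ∀ a b, 0 < (X.adjMatrix ℝ ^ m) a b) (h2 : ¬ X.Colorable 2)
    (h3 : Fintype.card V ≠ 1) (h1 : X.Connected) (ht : TwinFree X) (hq : NoQuantumSymmetry X) :
    NoQuantumSymmetry (dir X X) := by
  intro A _ u hu hc x y z w
  have hne : Nonempty V := h1.nonempty
  have h0 := qiso_of_magic (dir X X) u hu (by convert hc)
  have hker := hB V X h1 ht m hm
  obtain ⟨N, hN⟩ : ∃ N : V → V → ℝ, N = (fun a b => (X.adjMatrix ℝ ^ (2 * m)) a b /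
      Real.sqrt ((X.adjMatrix ℝ ^ (2 * m)) a a * (X.adjMatrix ℝ ^ (2 * m)) b b)) := ⟨_, rfl⟩
  rw [← hN] at hker
  have hpos : ∀ a, 0 < (X.adjMatrix ℝ ^ (2 * m)) a a := by
    intro a
    have h := hker.pos a a
    rw [hN] at h
    simp only at h
    by_contra hle
    push Not at hle
    have : (X.adjMatrix ℝ ^ (2 * m)) a a /
        Real.sqrt ((X.adjMatrix ℝ ^ (2 * m)) a a * (X.adjMatrix ℝ ^ (2 * m)) a a) ≤ 0 :=
      div_nonpos_of_nonpos_of_nonneg hle (Real.sqrt_nonneg _)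
    linarith
  have hP := ker_pres X N (fun a b => u a b) h0 (fun a b => (X.adjMatrix ℝ ^ (2 * m)) a b) hpos
    (fun a b => by rw [hN]) (hJ V X A (fun a b => u a b) h0 (2 * m))
  obtain ⟨hk2, hS⟩ := hE V N hker
  have hQ := hL (V × V) (dir X X) (kk N) A (fun a b => u a b) h0 hk2 hP
  rw [hS] at hQ
  have hadj : ∃ a b, X.Adj a b := by
    by_contra hno
    push Not at hno
    obtain ⟨a⟩ := hne
    have hc1 : 1 < Fintype.card V := by
      have : 0 < Fintype.card V := Fintype.card_pos_iff.2 ⟨a⟩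
      omega
    obtain ⟨b, hb⟩ := Fintype.exists_ne_of_one_lt_card hc1 a
    exact hb ((ht a b (fun z => ⟨fun h => absurd h (hno _ _), fun h => absurd h (hno _ _)⟩)).symm)
  exact assembly' hW V X (SG N) (hC V N hker) h1 h2 ht hadj hq A (fun a b => u a b) hQ h0 x y z w

theorem full (V : Type) [Fintype V] [Nonempty V] (X : SimpleGraph V) :
    NoQuantumSymmetry (dir X X) ↔ (Fintype.card V = 1 ∨
      (X.Connected ∧ ¬ X.Colorable 2 ∧ TwinFree X ∧ NoQuantumSymmetry X)) := by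
  refine ⟨necAll V X, fun h => ?_⟩
  by_cases h1 : Fintype.card V = 1
  · exact one_noqs V X h1
  rcases h with h | h
  · exact absurd h h1
  obtain ⟨m, hm⟩ := t_A V X h.1 h.2.1
  exact suffCore' t_B t_C t_E (t_W' t_F t_U t_Z t_Y t_V) t_J (t_L t_D) V X m hm h.2.1 h1 h.1
    h.2.2.1 h.2.2.2

end Pool.Agent.H266Z.DS
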