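import Pool.Agent.Helper741.QSym.Central

set_option autoImplicit false
set_option linter.unusedSectionVars false
set_option linter.unusedVariables false

namespace Pool.Agent.H266Z.DS

open Pool.Agent.H741.QS

theorem no_bad' {ι : Type} [Fintype ι] [DecidableEq ι] {P : ι → Type} [∀ i, Fintype (P i)]
    (G : ∀ i, SimpleGraph (P i)) (hG : ∀ i, (G i).Connected)
    (Bd : (∀ i, P i) → (∀ i, P i) → Prop)
    (b1 : ∀ a b, Bd a b → (boxPi G).Adj a b)
    (b2 : ∀ a b, Bd a b → Bd b a)
    (b3 : ∀ a b c, Bd a b → (boxPi G).Adj a c → c ≠ b →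
      ∃ d, (boxPi G).Adj b d ∧ (boxPi G).Adj c d ∧ Bd c d ∧
        ∀ z, ((boxPi G).dist a z : ℤ) - (boxPi G).dist b z =
          (boxPi G).dist c z - (boxPi G).dist d z) :
    ∀ k, NoK2 (G k) → ∀ a b, DirAdj G k a b → ¬ Bd a b := by
  intro k hK a0 b0 hdir hbd
  have hZ := boxPi_connected G hG
  obtain ⟨hk1, hk2⟩ := hdir
  set h : (∀ i, P i) → ℤ := fun z => ((boxPi G).dist a0 z : ℤ) - (boxPi G).dist b0 z with hh
  set h1 : P k → ℤ := fun q => ((G k).dist (a0 k) q : ℤ) - (G k).dist (b0 k) q with hh1
  have hz : ∀ z, h z = h1 (z k) := fun z => dist_diff G hG k a0 b0 z hk2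
  have claim : ∀ z, ∃ z', (Bd z z' ∧ ∀ w, ((boxPi G).dist z w : ℤ) - (boxPi G).dist z' w = h w) ∨
      (Bd z' z ∧ ∀ w, ((boxPi G).dist z' w : ℤ) - (boxPi G).dist z w = h w) := by
    have step : ∀ a c, (boxPi G).Adj a c → 
      (∃ z', (Bd a z' ∧ ∀ w, ((boxPi G).dist a w : ℤ) - (boxPi G).dist z' w = h w) ∨
        (Bd z' a ∧ ∀ w, ((boxPi G).dist z' w : ℤ) - (boxPi G).dist a w = h w)) →
      (∃ z', (Bd c z' ∧ ∀ w, ((boxPi G).dist c w : ℤ) - (boxPi G).dist z' w = h w) ∨
        (Bd z' c ∧ ∀ w, ((boxPi G).dist z' w : ℤ) - (boxPi G).dist c w = h w)) := by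
      rintro a c hac ⟨b, ⟨hb1, hb2⟩ | ⟨hb1, hb2⟩⟩
      · by_cases hcb : c = b
        · subst hcb; exact ⟨a, Or.inr ⟨hb1, hb2⟩⟩
        · obtain ⟨d, _, _, hd3, hd4⟩ := b3 a b c hb1 hac hcb
          exact ⟨d, Or.inl ⟨hd3, fun w => by rw [← hd4 w]; exact hb2 w⟩⟩
      · by_cases hcb : c = b
        · subst hcb; exact ⟨a, Or.inl ⟨hb1, hb2⟩⟩
        · obtain ⟨d, _, _, hd3, hd4⟩ := b3 a b c (b2 _ _ hb1) hac hcb
          refine ⟨d, Or.inr ⟨b2 _ _ hd3, fun w => ?_⟩⟩
          have e1 := hd4 w
          have e2 := hb2 w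
          omega
    intro z
    obtain ⟨p⟩ := hZ.preconnected a0 z
    have hwalk : ∀ (u v : ∀ i, P i) (p : (boxPi G).Walk u v), 
      (∃ z', (Bd u z' ∧ ∀ w, ((boxPi G).dist u w : ℤ) - (boxPi G).dist z' w = h w) ∨
        (Bd z' u ∧ ∀ w, ((boxPi G).dist z' w : ℤ) - (boxPi G).dist u w = h w)) →
      (∃ z', (Bd v z' ∧ ∀ w, ((boxPi G).dist v w : ℤ) - (boxPi G).dist z' w = h w) ∨
        (Bd z' v ∧ ∀ w, ((boxPi G).dist z' w : ℤ) - (boxPi G).dist v w = h w)) := by
      intro u v p
      induction p with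
      | nil => exact id
      | cons hadj _ ih => intro hu; exact ih (step _ _ hadj hu)
    exact hwalk a0 z p ⟨b0, Or.inl ⟨hbd, fun w => rfl⟩⟩
  have main : ∀ p : P k, ∃ p', (G k).Adj p p' ∧ ((∀ q, ((G k).dist p q : ℤ) - (G k).dist p' q = h1 q) ∨
      (∀ q, ((G k).dist p' q : ℤ) - (G k).dist p q = h1 q)) := by
    intro p
    set z := Function.update a0 k p with hzdef
    have hzk : z k = p := by rw [hzdef]; simp
    obtain ⟨z', hz'⟩ := claim z
    have hadj : (boxPi G).Adj z z' := by
      rcases hz' with h' | h'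
      · exact b1 _ _ h'.1
      · exact (b1 _ _ h'.1).symm
    have hd1 : ((boxPi G).dist z z' : ℤ) = 1 := by
      have := SimpleGraph.dist_eq_one_iff_adj.2 hadj; exact_mod_cast this
    have hd1' : ((boxPi G).dist z' z : ℤ) = 1 := by rw [SimpleGraph.dist_comm]; exact hd1
    have hne : h z ≠ h z' := by
      rcases hz' with h' | h'
      · have e1 := h'.2 z
        have e2 := h'.2 z'
        rw [SimpleGraph.dist_self, hd1'] at e1
        rw [SimpleGraph.dist_self, hd1] at e2
        push_cast at e1 e2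
        omega
      · have e1 := h'.2 z
        have e2 := h'.2 z'
        rw [SimpleGraph.dist_self, hd1'] at e1
        rw [SimpleGraph.dist_self, hd1] at e2
        push_cast at e1 e2
        omega
    obtain ⟨i, hi1, hi2⟩ := hadj
    have hik : i = k := by
      by_contra hik
      apply hne
      rw [hz z, hz z', hi2 k (Ne.symm hik)]
    subst hik
    refine ⟨z' i, by rw [← hzk]; exact hi1, ?_⟩
    rcases hz' with h' | h'
    · left
      intro q
      have e := h'.2 (Function.update a0 i q)
      rw [dist_diff G hG i z z' _ hi2, hz, hzk] at e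
      simpa using e
    · right
      intro q
      have e := h'.2 (Function.update a0 i q)
      rw [dist_diff G hG i z' z _ (fun j hj => (hi2 j hj).symm), hz, hzk] at e
      simpa using e
  obtain ⟨W, hW, H, hiso⟩ := k2_struct (G k) (hG k) h1 main
  exact (hK W H).false hiso.some

theorem dirAdj_update {ι : Type} [DecidableEq ι] {P : ι → Type} (G : ∀ i, SimpleGraph (P i))
    (k : ι) (z : ∀ i, P i) {p q : P k} (h : (G k).Adj p q) :
    DirAdj G k (Function.update z k p) (Function.update z k q) := by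
  refine ⟨by simpa using h, fun j hj => ?_⟩
  rw [Function.update_of_ne hj, Function.update_of_ne hj]

theorem par_lift' {ι : Type} [Fintype ι] [DecidableEq ι] {P : ι → Type}
    (G : ∀ i, SimpleGraph (P i)) (hG : ∀ i, (G i).Connected)
    (k : ι) (hirr : ∀ (S : P k → P k → Prop), ParClosed (G k) S →
      (∃ a b, (G k).Adj a b ∧ S a b) → ∀ a b, (G k).Adj a b → S a b)
    (S : (∀ i, P i) → (∀ i, P i) → Prop)
    (hS1 : ∀ z, ParClosed (G k) (fun a b => S (Function.update z k a) (Function.update z k b)))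
    (hS2 : ∀ a b c d, DirAdj G k a b → DirAdj G k c d → Diag (boxPi G) b c a d → S a b → S c d)
    (x x' y y' : ∀ i, P i) (hx : DirAdj G k x x') (hy : DirAdj G k y y')
    (h : S x x') : S y y' := by
  have hstep : ∀ z w : (∀ i, P i), (boxPi G).Adj z w →
      (∀ p q, (G k).Adj p q → S (Function.update z k p) (Function.update z k q)) →
      (∀ p q, (G k).Adj p q → S (Function.update w k p) (Function.update w k q)) := by
    rintro z w ⟨i, hi1, hi2⟩ hz p q hpq
    by_cases hik : i = k
    · have : ∀ r : P k, Function.update w k r = Function.update z k r := by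
        intro r
        funext j
        by_cases hj : j = k
        · subst hj; simp
        · rw [Function.update_of_ne hj, Function.update_of_ne hj, hi2 j (by rw [hik]; exact hj)]
      rw [this, this]
      exact hz p q hpq
    · exact hS2 _ _ _ _ (dirAdj_update G k z hpq) (dirAdj_update G k w hpq) (pl_move G k z w i hik hi1 hi2 p q hpq) (hz p q hpq)
  have hreach : ∀ z w : (∀ i, P i), (boxPi G).Reachable z w →
      (∀ p q, (G k).Adj p q → S (Function.update z k p) (Function.update z k q)) →
      (∀ p q, (G k).Adj p q → S (Function.update w k p) (Function.update w k q)) := by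
    rintro z w ⟨W⟩
    induction W with
    | nil => exact id
    | cons hadj _ ih => exact fun hz => ih (hstep _ _ hadj hz)
  have hx0 : Function.update x k (x k) = x := Function.update_eq_self k x
  have hx1 : Function.update x k (x' k) = x' := by
    funext j
    by_cases hj : j = k
    · subst hj; simp
    · rw [Function.update_of_ne hj]; exact hx.2 j hj
  have hy0 : Function.update y k (y k) = y := Function.update_eq_self k y
  have hy1 : Function.update y k (y' k) = y' := by
    funext j
    by_cases hj : j = k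
    · subst hj; simp
    · rw [Function.update_of_ne hj]; exact hy.2 j hj
  have hQx := hirr _ (hS1 x) ⟨x k, x' k, hx.1, by rw [hx0, hx1]; exact h⟩
  have hQy := hreach x y ((boxPi_connected G hG).preconnected x y) hQx (y k) (y' k) hy.1
  rwa [hy0, hy1] at hQy

theorem exists_aux' (n : ℕ) : ∀ {V : Type} [Fintype V] (X : SimpleGraph V), Fintype.card V = n → X.Connected →
    ∃ (ι : Type) (_ : Fintype ι) (_ : DecidableEq ι) (P : ι → Type) (_ : ∀ i, Fintype (P i))
      (G : ∀ i, SimpleGraph (P i)),
      (∀ i, (G i).Connected ∧ 2 ≤ Fintype.card (P i) ∧ PrimeGraph (G i)) ∧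
      Nonempty (X ≃g boxPi G) := by
  induction n using Nat.strong_induction_on with
  | _ n ih =>
    intro V _ X hcard hX
    by_cases h2 : 2 ≤ Fintype.card V
    · by_cases hp : PrimeGraph X
      · refine ⟨Unit, inferInstance, inferInstance, fun _ => V, fun _ => inferInstance, fun _ => X,
          fun _ => ⟨hX, h2, hp⟩, ⟨⟨(Equiv.funUnique Unit V).symm, ?_⟩⟩⟩
        intro a b
        rw [boxPi_adj]
        constructor
        · rintro ⟨_, h, _⟩; exact h
        · intro h; exact ⟨(), h, fun j hj => absurd rfl hj⟩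
      · unfold PrimeGraph at hp
        push Not at hp
        obtain ⟨V1, V2, f1, f2, G1, G2, c1, c2, he⟩ := hp
        obtain ⟨e⟩ := he
        have hc : Fintype.card V = Fintype.card V1 * Fintype.card V2 := by
          rw [Fintype.card_congr e.toEquiv, Fintype.card_prod]
        have hcon : (G1 □ G2).Connected := (e.connected_iff).mp hX
        obtain ⟨hc1, hc2⟩ := SimpleGraph.connected_boxProd.mp hcon
        obtain ⟨ι₁, i1, i2, P₁, i3, H₁, p1, ⟨q1⟩⟩ := ih (Fintype.card V1) (by nlinarith) G1 rfl hc1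
        obtain ⟨ι₂, j1, j2, P₂, j3, H₂, p2, ⟨q2⟩⟩ := ih (Fintype.card V2) (by nlinarith) G2 rfl hc2
        refine ⟨ι₁ ⊕ ι₂, inferInstance, inferInstance, Sum.elim P₁ P₂,
          fun i => match i with
            | Sum.inl a => i3 a
            | Sum.inr b => j3 b,
          sumFam H₁ H₂, ?_, ⟨e.trans ((prodCongr q1 q2).trans (sumIso H₁ H₂))⟩⟩
        rintro (a | b)
        · exact p1 a
        · exact p2 b
    · have hne : Nonempty V := hX.nonempty
      have hle : Fintype.card V ≤ 1 := by omega
      have hss : Subsingleton V := Fintype.card_le_one_iff_subsingleton.mp hle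
      obtain ⟨v⟩ := hne
      refine ⟨Empty, inferInstance, inferInstance, fun _ => Unit, fun _ => inferInstance, fun _ => ⊤,
        fun i => i.elim, ⟨⟨⟨fun _ i => i.elim, fun _ => v, fun a => Subsingleton.elim _ _,
          fun f => by funext i; exact i.elim⟩, ?_⟩⟩⟩
      intro a b
      rw [boxPi_adj]
      constructor
      · rintro ⟨i, _⟩; exact i.elim
      · intro h
        exact absurd (Subsingleton.elim a b) h.ne

theorem noK2_of_prime {V : Type} [Fintype V] (G : SimpleGraph V) (hp : PrimeGraph G)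
    (h2 : 2 ≤ Fintype.card V) (h3 : Fintype.card V ≠ 2) : NoK2 G := by
  intro W _ Y
  refine ⟨fun e => ?_⟩
  have hc := Fintype.card_congr e.toEquiv
  rw [Fintype.card_prod, Fintype.card_bool] at hc
  exact (hp Bool W ⊤ Y (by simp) (by omega)).false e

theorem two_nbrs {V : Type} [Fintype V] (G : SimpleGraph V) (hG : G.Connected)
    (h2 : 2 ≤ Fintype.card V) (h3 : Fintype.card V ≠ 2) :
    ∃ p q r, G.Adj p q ∧ G.Adj p r ∧ q ≠ r := by
  classical
  by_contra hn
  push Not at hn
  have : Nontrivial V := Fintype.one_lt_card_iff_nontrivial.1 h2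
  obtain ⟨p⟩ := hG.nonempty
  obtain ⟨q, hq⟩ := hG.preconnected.exists_adj_of_nontrivial p
  have hw : ∀ (s t : V) (W : G.Walk s t), (s = p ∨ s = q) → (t = p ∨ t = q) := by
    intro s t W
    induction W with
    | nil => exact id
    | cons hadj _ ih =>
      rintro (h | h)
      · subst h
        exact ih (Or.inr (hn _ _ _ hadj hq))
      · subst h
        exact ih (Or.inl (hn _ _ _ hadj hq.symm))
  have hsub : (Finset.univ : Finset V) ⊆ {p, q} := by
    intro t _
    obtain ⟨W⟩ := hG.preconnected p t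
    rcases hw p t W (Or.inl rfl) with h | h <;> simp [h]
  have h4 := Finset.card_le_card hsub
  have h5 : ({p, q} : Finset V).card ≤ 2 := Finset.card_le_two
  rw [Finset.card_univ] at h4
  omega

section

variable {J : Type} [Fintype J] [DecidableEq J] {P : J → Type} [∀ k, Fintype (P k)]
variable {A : Type} [Ring A] [StarRing A] [Algebra ℝ A] [StarModule ℝ A]

theorem good_big (G : ∀ k, SimpleGraph (P k)) (hG : ∀ k, (G k).Connected)
    (hB : ∀ x : A, star x * x = 0 → x = 0)
    (u : (∀ k, P k) → (∀ k, P k) → A) (h : QIso (boxPi G) (boxPi G) u) (k l : J)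
    (hK : NoK2 (G k)) {a b : ∀ k, P k} (hab : DirAdj G k a b) :
    Good (boxPi G) (fun w : ∀ k, P k => w l) (rest P l) u a b := by
  by_contra hbad
  have hs := split_boxPi G hG l
  refine no_bad' G hG (fun a b => (boxPi G).Adj a b ∧
    ¬ Good (boxPi G) (fun w : ∀ k, P k => w l) (rest P l) u a b) ?_ ?_ ?_ k hK a b hab
      ⟨⟨k, hab⟩, hbad⟩
  · intro a b h1; exact h1.1
  · rintro a b ⟨h1, h2⟩
    exact ⟨h1.symm, fun h3 => h2 (good_symm h hs h1.symm h3)⟩
  · rintro a b c ⟨h1, h2⟩ h3 h4
    obtain ⟨d, h5, h6, h7, h8⟩ := bad_move h (boxPi_connected G hG) hs hB h1 h2 h3 h4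
    exact ⟨d, h5, h6, ⟨h6, h7⟩, h8⟩

theorem EE_const' (G : ∀ k, SimpleGraph (P k)) (hG : ∀ k, (G k).Connected)
    (hprime : ∀ k, PrimeGraph (G k))
    (hB : ∀ x : A, star x * x = 0 → x = 0)
    (u : (∀ k, P k) → (∀ k, P k) → A) (h : QIso (boxPi G) (boxPi G) u) (k l : J)
    (hgood : ∀ a b, DirAdj G k a b → Good (boxPi G) (fun w : ∀ k, P k => w l) (rest P l) u a b)
    {a b c d : ∀ k, P k} (hab : DirAdj G k a b) (hcd : DirAdj G k c d) :
    EE (Dir1 (boxPi G) (rest P l)) u c d = EE (Dir1 (boxPi G) (rest P l)) u a b := by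
  have hs := split_boxPi G hG l
  refine par_lift' G hG k (fun S hS h1 a b hab => par_irred (G k) (hG k) (hprime k) S hS h1 a b hab)
    (fun c d => EE (Dir1 (boxPi G) (rest P l)) u c d = EE (Dir1 (boxPi G) (rest P l)) u a b)
    ?_ ?_ a b c d hab hcd rfl
  · intro z
    constructor
    · intro x y hxy h1
      rw [← h1]
      exact (EE_flip h hs ((pl_adj G k z x y).2 hxy) (hgood _ _ (dirAdj_update G k z hxy))).symm
    · intro x y t hxy hxt hyt hn h1
      rw [← h1]
      refine (EE_loc h hs ((pl_adj G k z x y).2 hxy) ((pl_adj G k z x t).2 hxt)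
        (fun h => hyt (Function.update_injective z k h)) ?_).symm
      rintro ⟨w, hw⟩
      have h1 := (hw.2.2.2 w).2 (Or.inr rfl)
      have h2 := pl_nb G k z w y t hyt h1.1 h1.2
      rw [h2, pl_diag] at hw
      exact hn ⟨_, hw⟩
    · intro x y t s hd h1
      rw [← h1]
      exact (EE_sq h hs ((pl_diag G k z y t x s).2 hd)
        (hgood _ _ (dirAdj_update G k z hd.adj1.symm))
        (hgood _ _ (dirAdj_update G k z hd.adj4))).symm
    · intro x y t s r hd1 hd2 hz h1
      rw [← h1]
      refine (EE_tw h (boxPi_connected G hG) hs hB ((pl_diag G k z y t x s).2 hd1)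
        ((pl_diag G k z x s y t).2 hd2) (z := Function.update z k r) ?_).symm
      rw [pl_dist G k hG, pl_dist G k hG, pl_dist G k hG, pl_dist G k hG]
      exact hz
  · intro x y z t hxy hzt hd h1
    rw [← h1]
    exact (EE_sq h hs hd (hgood _ _ hxy) (hgood _ _ hzt)).symm

theorem big_small (G : ∀ k, SimpleGraph (P k)) (hG : ∀ k, (G k).Connected)
    (hP : ∀ k, 2 ≤ Fintype.card (P k)) (hprime : ∀ k, PrimeGraph (G k))
    (hB : ∀ x : A, star x * x = 0 → x = 0)
    (u : (∀ k, P k) → (∀ k, P k) → A) (h : QIso (boxPi G) (boxPi G) u) (k l : J)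
    (hk : Fintype.card (P k) ≠ 2) (hl : Fintype.card (P l) = 2)
    {a b w v : ∀ k, P k} (hab : DirAdj G k a b) (hwv : DirAdj G l w v) :
    u a w * u b v = 0 := by
  classical
  have hK := noK2_of_prime (G k) (hprime k) (hP k) hk
  have hs := split_boxPi G hG l
  have hgood : ∀ a b, DirAdj G k a b →
      Good (boxPi G) (fun w : ∀ k, P k => w l) (rest P l) u a b :=
    fun a b hab => good_big G hG hB u h k l hK hab
  obtain ⟨p, q, r, hpq, hpr, hqr⟩ := two_nbrs (G k) (hG k) (hP k) hk
  have d1 := dirAdj_update G k a hpq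
  have d2 := dirAdj_update G k a hpr
  have hne : Function.update a k q ≠ Function.update a k r :=
    fun h => hqr (Function.update_injective a k h)
  generalize Function.update a k p = c at d1 d2
  generalize Function.update a k q = d at d1 hne
  generalize Function.update a k r = e at d2 hne
  have c1 := EE_const' G hG hprime hB u h k l hgood hab d1
  have c2 := EE_const' G hG hprime hB u h k l hgood hab d2
  have p1 := EE_props h hs (show (boxPi G).Adj c d from ⟨k, d1⟩) (hgood _ _ d1)
  rw [c1] at p1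
  have hY : ∀ (d : ∀ k, P k) (w : ∀ k, P k), u c w * EE (Dir1 (boxPi G) (rest P l)) u c d =
      u c w * ∑ v, (if Dir1 (boxPi G) (rest P l) w v then u d v else 0) := by
    intro d w
    rw [aux_u_mul_EE h, Finset.mul_sum]
    refine Finset.sum_congr rfl fun v _ => ?_
    split_ifs <;> simp
  have hE : EE (Dir1 (boxPi G) (rest P l)) u a b = 0 := by
    apply h.eq_zero_left c
    intro w
    have y1 := hY d w
    have y2 := hY e w
    rw [c1] at y1
    rw [c2] at y2
    have y3 := congrArg star y1
    rw [star_mul, star_mul, p1.1, h.star_eq] at y3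
    have y4 : star (∑ v, (if Dir1 (boxPi G) (rest P l) w v then u d v else 0)) =
        ∑ v, (if Dir1 (boxPi G) (rest P l) w v then u d v else 0) := by
      rw [star_sum]
      refine Finset.sum_congr rfl fun v _ => ?_
      split_ifs
      · exact h.star_eq _ _
      · exact star_zero _
    rw [y4] at y3
    have y5 : (∑ v, (if Dir1 (boxPi G) (rest P l) w v then u e v else 0)) *
        (∑ v, (if Dir1 (boxPi G) (rest P l) w v then u d v else 0)) = 0 := by
      rw [Finset.sum_mul_sum]
      refine Finset.sum_eq_zero fun v _ => Finset.sum_eq_zero fun v' _ => ?_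
      split_ifs with h1 h2
      · rw [dir1_iff] at h1 h2
        have : v = v' := by
          funext j
          by_cases hj : j = l
          · subst hj
            by_contra hvv
            have h3 : ({w j, v j, v' j} : Finset (P j)).card = 3 := by
              rw [Finset.card_eq_three]
              exact ⟨_, _, _, h1.1.ne, h2.1.ne, hvv, rfl⟩
            have h4 := Finset.card_le_univ ({w j, v j, v' j} : Finset (P j))
            omega
          · exact (h1.2 j hj).symm.trans (h2.2 j hj)
        rw [this]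
        exact h.colOrth e d v' hne.symm
      all_goals simp
    have y6 := p1.2.2.1 w
    have y7 := p1.2.1
    generalize EE (Dir1 (boxPi G) (rest P l)) u a b = E at y1 y2 y3 y6 y7 ⊢
    calc u c w * E = u c w * (E * u c w) := by rw [y6, ← mul_assoc, h.idem]
      _ = (u c w * E) * (E * u c w) := by
          rw [mul_assoc, ← mul_assoc E E, y7]
      _ = 0 := by
          rw [y3, y2, mul_assoc, ← mul_assoc _ _ (u c w), y5, zero_mul, mul_zero]
  have h1 := EE_sandwich h (Dir1 (boxPi G) (rest P l)) a b w v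
  rw [hE, if_pos ((dir1_iff G l w v).2 hwv)] at h1
  rw [← h1]
  simp

theorem exists_central' (G : ∀ k, SimpleGraph (P k)) (hG : ∀ k, (G k).Connected)
    (hP : ∀ k, 2 ≤ Fintype.card (P k))
    (hprime : ∀ k, PrimeGraph (G k))
    (hB : ∀ x : A, star x * x = 0 → x = 0)
    (u : (∀ k, P k) → (∀ k, P k) → A) (h : QIso (boxPi G) (boxPi G) u)
    (hgood : ∀ (l : J) {a b : ∀ k, P k}, (boxPi G).Adj a b →
      Good (boxPi G) (fun w : ∀ k, P k => w l) (rest P l) u a b) :
    ∃ E : J → J → A, (∀ k l, star (E k l) = E k l) ∧ (∀ k l, E k l * E k l = E k l) ∧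
      (∀ k l k' l', E k l * E k' l' = E k' l' * E k l) ∧ (∀ k, ∑ l, E k l = 1) ∧
      (∀ k l a w, E k l * u a w = u a w * E k l) ∧
      (∀ k l a b w v, DirAdj G k a b → ¬ DirAdj G l w v → u a w * u b v * E k l = 0) := by
  classical
  have hconn := boxPi_connected G hG
  obtain ⟨o⟩ := hconn.nonempty
  choose b hb using fun k => exists_nbr G hG hP k o
  have hs := split_boxPi G hG
  have hadj : ∀ {k} {a b : ∀ k, P k}, DirAdj G k a b → (boxPi G).Adj a b :=
    fun {k} {a b} h => ⟨k, h.1, h.2⟩
  have hconst : ∀ k l {a c : ∀ k, P k}, DirAdj G k a c →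
      EE (Dir1 (boxPi G) (rest P l)) u a c = EE (Dir1 (boxPi G) (rest P l)) u o (b k) :=
    fun k l a c hac => EE_const' G hG hprime hB u h k l (fun a b hab => hgood l (hadj hab)) (hb k) hac
  have hcu : ∀ k l a w, EE (Dir1 (boxPi G) (rest P l)) u o (b k) * u a w =
      u a w * EE (Dir1 (boxPi G) (rest P l)) u o (b k) := by
    intro k l a w
    obtain ⟨c, hc⟩ := exists_nbr G hG hP k a
    rw [← hconst k l hc]
    exact (EE_props h (hs l) (hadj hc) (hgood l (hadj hc))).2.2.1 w
  refine ⟨fun k l => EE (Dir1 (boxPi G) (rest P l)) u o (b k), ?_, ?_, ?_, ?_, ?_, ?_⟩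
  · intro k l
    exact (EE_props h (hs l) (hadj (hb k)) (hgood l (hadj (hb k)))).1
  · intro k l
    exact (EE_props h (hs l) (hadj (hb k)) (hgood l (hadj (hb k)))).2.1
  · intro k l k' l'
    have h1 : ∀ w v, EE (Dir1 (boxPi G) (rest P l)) u o (b k) * (u o w * u (b k') v) =
        (u o w * u (b k') v) * EE (Dir1 (boxPi G) (rest P l)) u o (b k) := by
      intro w v
      rw [← mul_assoc, hcu, mul_assoc, hcu, mul_assoc]
    show EE (Dir1 (boxPi G) (rest P l)) u o (b k) * EE (Dir1 (boxPi G) (rest P l')) u o (b k') =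
      EE (Dir1 (boxPi G) (rest P l')) u o (b k') * EE (Dir1 (boxPi G) (rest P l)) u o (b k)
    have e2 : EE (Dir1 (boxPi G) (rest P l')) u o (b k') = ∑ w, ∑ v,
      if Dir1 (boxPi G) (rest P l') w v then u o w * u (b k') v else 0 := rfl
    rw [e2, Finset.mul_sum, Finset.sum_mul]
    refine Finset.sum_congr rfl fun w _ => ?_
    rw [Finset.mul_sum, Finset.sum_mul]
    refine Finset.sum_congr rfl fun v _ => ?_
    split_ifs
    · exact h1 w v
    · simp
  · intro k
    have hx : ∀ w v, ∑ l, (if Dir1 (boxPi G) (rest P l) w v then u o w * u (b k) v else 0) =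
        u o w * u (b k) v := by
      intro w v
      by_cases hwv : (boxPi G).Adj w v
      · obtain ⟨i, hi, hne⟩ := hwv
        rw [Finset.sum_eq_single i]
        · rw [if_pos ((dir1_iff G i w v).2 ⟨hi, hne⟩)]
        · intro l _ hl
          rw [if_neg]
          rw [dir1_iff]
          rintro ⟨h1, h2⟩
          have h3 := h2 i (Ne.symm hl)
          rw [h3] at hi
          exact hi.ne rfl
        · intro hi'; exact absurd (Finset.mem_univ _) hi'
      · have h0 : u o w * u (b k) v = 0 :=
          h.adj _ _ _ _ fun h' => hwv (h'.1 (hadj (hb k)))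
        rw [h0]
        simp
    calc ∑ l, EE (Dir1 (boxPi G) (rest P l)) u o (b k)
        = ∑ l, ∑ w, ∑ v, (if Dir1 (boxPi G) (rest P l) w v then u o w * u (b k) v else 0) := rfl
      _ = ∑ w, ∑ v, ∑ l, (if Dir1 (boxPi G) (rest P l) w v then u o w * u (b k) v else 0) := by
          rw [Finset.sum_comm]
          refine Finset.sum_congr rfl fun w _ => ?_
          rw [Finset.sum_comm]
      _ = ∑ w, ∑ v, u o w * u (b k) v := by
          refine Finset.sum_congr rfl fun w _ => Finset.sum_congr rfl fun v _ => hx w v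
      _ = 1 := by
          simp only [← Finset.mul_sum, h.rowSum, mul_one]
  · intro k l a w
    exact hcu k l a w
  · intro k l a c w v hac hn
    show u a w * u c v * EE (Dir1 (boxPi G) (rest P l)) u o (b k) = 0
    rw [mul_assoc, ← hcu, ← mul_assoc, ← hconst k l hac, EE_sandwich h, if_neg]
    rw [dir1_iff]
    exact hn

end

end Pool.Agent.H266Z.DS
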